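import Mathlib
import Pool.Agent.Y16.AF.StmA

/-! Spectral representation of the Green functions on an interval. -/

namespace Pool.Agent.Y427.AF

open Pool.Agent.Y16.AF

noncomputable section

/-! ### Trigonometric sums -/

lemma cos_tele (x : ℝ) (n : ℕ) :
    2 * Real.sin x * ∑ j ∈ Finset.range n, Real.cos (2 * x * j) =
      Real.sin ((2 * n - 1) * x) + Real.sin x := by
  induction n with
  | zero => simp
  | succ n ih =>
    rw [Finset.sum_range_succ, mul_add, ih]
    push_cast
    have e1 : (2 * ((n : ℝ) + 1) - 1) * x = 2 * x * n + x := by ring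
    have e2 : (2 * (n : ℝ) - 1) * x = 2 * x * n - x := by ring
    rw [e1, e2, Real.sin_add, Real.sin_sub]
    ring

lemma cos_sum {L m : ℕ} (hm : 0 < m) (hm2 : m < 2 * L) :
    ∑ j ∈ Finset.range L, Real.cos (Real.pi * j * m / L) = (1 - (-1 : ℝ) ^ m) / 2 := by
  have hL : 0 < L := by omega
  have hL' : (0 : ℝ) < L := by exact_mod_cast hL
  have hm' : (0 : ℝ) < m := by exact_mod_cast hm
  have hm2' : (m : ℝ) < 2 * L := by exact_mod_cast hm2
  set x : ℝ := Real.pi * m / (2 * L) with hx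
  have hs : 0 < Real.sin x := by
    apply Real.sin_pos_of_pos_of_lt_pi
    · have := Real.pi_pos
      positivity
    · rw [hx, div_lt_iff₀ (by positivity)]
      have := Real.pi_pos
      nlinarith
  have h1 := cos_tele x L
  have e1 : ∀ j : ℕ, Real.cos (2 * x * j) = Real.cos (Real.pi * j * m / L) := by
    intro j
    congr 1
    rw [hx]
    field_simp
  simp_rw [e1] at h1
  have e2 : (2 * (L : ℝ) - 1) * x = m * Real.pi - x := by
    rw [hx]; field_simp
  rw [e2, Real.sin_sub, Real.sin_nat_mul_pi, Real.cos_nat_mul_pi] at h1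
  have h2 : 2 * Real.sin x * ∑ j ∈ Finset.range L, Real.cos (Real.pi * j * m / L) =
      2 * Real.sin x * ((1 - (-1 : ℝ) ^ m) / 2) := by
    rw [h1]; ring
  exact mul_left_cancel₀ (by positivity) h2

lemma neg_one_pow_par {a b : ℕ} (h : a ≤ b) : (-1 : ℝ) ^ (b - a) = (-1) ^ (b + a) := by
  obtain ⟨c, rfl⟩ := Nat.exists_eq_add_of_le h
  rw [Nat.add_sub_cancel_left, show a + c + a = c + 2 * a by ring, pow_add, pow_mul]
  simp

lemma dst_aux {L t s : ℕ} (h : s < t) (ht : t < L) :
    ∑ j ∈ Finset.range L, (Real.cos (Real.pi * j * t / L - Real.pi * j * s / L) -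
      Real.cos (Real.pi * j * t / L + Real.pi * j * s / L)) = 0 := by
  rw [Finset.sum_sub_distrib]
  have h1 := cos_sum (L := L) (m := t - s) (by omega) (by omega)
  have h2 := cos_sum (L := L) (m := t + s) (by omega) (by omega)
  have e1 : ∀ j : ℕ, Real.cos (Real.pi * j * t / L - Real.pi * j * s / L) =
      Real.cos (Real.pi * j * ((t - s : ℕ) : ℝ) / L) := by
    intro j
    congr 1
    rw [Nat.cast_sub h.le]
    ring
  have e2 : ∀ j : ℕ, Real.cos (Real.pi * j * t / L + Real.pi * j * s / L) =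
      Real.cos (Real.pi * j * ((t + s : ℕ) : ℝ) / L) := by
    intro j
    congr 1
    push_cast
    ring
  simp_rw [e1, e2]
  rw [h1, h2, neg_one_pow_par h.le]
  ring

lemma dst {L t s : ℕ} (ht : t < L) (hs : s < L) :
    ∑ j ∈ Finset.range L, 2 / (L : ℝ) * (Real.sin (Real.pi * j * t / L) *
      Real.sin (Real.pi * j * s / L)) = if t = s then (if t = 0 then 0 else 1) else 0 := by
  have hL' : (0 : ℝ) < L := by exact_mod_cast (by omega : 0 < L)
  have e : ∀ j : ℕ, 2 / (L : ℝ) * (Real.sin (Real.pi * j * t / L) *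
      Real.sin (Real.pi * j * s / L)) = 1 / (L : ℝ) *
      (Real.cos (Real.pi * j * t / L - Real.pi * j * s / L) -
      Real.cos (Real.pi * j * t / L + Real.pi * j * s / L)) := by
    intro j
    rw [Real.cos_sub, Real.cos_add]
    ring
  simp_rw [e]
  rw [← Finset.mul_sum]
  split_ifs with h h0
  · subst h; subst h0; simp
  · subst h
    have h1 := cos_sum (L := L) (m := t + t) (by omega) (by omega)
    have e1 : ∀ j : ℕ, Real.cos (Real.pi * j * t / L + Real.pi * j * t / L) =
        Real.cos (Real.pi * j * ((t + t : ℕ) : ℝ) / L) := by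
      intro j
      congr 1
      push_cast
      ring
    simp_rw [e1, sub_self, Real.cos_zero]
    rw [Finset.sum_sub_distrib, h1, ← two_mul, pow_mul]
    simp
    exact inv_mul_cancel₀ hL'.ne'
  · rcases Nat.lt_or_gt_of_ne h with h2 | h2
    · have := dst_aux h2 hs
      have e1 : ∀ j : ℕ, (Real.cos (Real.pi * j * t / L - Real.pi * j * s / L) -
          Real.cos (Real.pi * j * t / L + Real.pi * j * s / L)) =
          (Real.cos (Real.pi * j * s / L - Real.pi * j * t / L) -
          Real.cos (Real.pi * j * s / L + Real.pi * j * t / L)) := by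
        intro j
        rw [← Real.cos_neg (Real.pi * j * t / L - Real.pi * j * s / L), neg_sub,
          add_comm (Real.pi * j * t / L)]
      simp_rw [e1]
      rw [this, mul_zero]
    · rw [dst_aux h2 ht, mul_zero]

lemma dct_aux {L t s : ℕ} (h : s < t) (ht : t < L) :
    ∑ j ∈ Finset.range L, (Real.cos (Real.pi * j * (t + 1 / 2) / L -
        Real.pi * j * (s + 1 / 2) / L) +
      Real.cos (Real.pi * j * (t + 1 / 2) / L + Real.pi * j * (s + 1 / 2) / L)) = 1 := by
  rw [Finset.sum_add_distrib]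
  have h1 := cos_sum (L := L) (m := t - s) (by omega) (by omega)
  have h2 := cos_sum (L := L) (m := t + s + 1) (by omega) (by omega)
  have e1 : ∀ j : ℕ, Real.cos (Real.pi * j * (t + 1 / 2) / L - Real.pi * j * (s + 1 / 2) / L) =
      Real.cos (Real.pi * j * ((t - s : ℕ) : ℝ) / L) := by
    intro j
    congr 1
    rw [Nat.cast_sub h.le]
    ring
  have e2 : ∀ j : ℕ, Real.cos (Real.pi * j * (t + 1 / 2) / L + Real.pi * j * (s + 1 / 2) / L) =
      Real.cos (Real.pi * j * ((t + s + 1 : ℕ) : ℝ) / L) := by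
    intro j
    congr 1
    push_cast
    ring
  simp_rw [e1, e2]
  rw [h1, h2, neg_one_pow_par h.le, pow_succ]
  ring

lemma dct {L t s : ℕ} (ht : t < L) (hs : s < L) :
    ∑ j ∈ Finset.range L, (if j = 0 then 1 else 2) / (L : ℝ) *
      (Real.cos (Real.pi * j * (t + 1 / 2) / L) *
      Real.cos (Real.pi * j * (s + 1 / 2) / L)) = if t = s then 1 else 0 := by
  have hL' : (0 : ℝ) < L := by exact_mod_cast (by omega : 0 < L)
  have e : ∀ j : ℕ, (if j = 0 then 1 else 2) / (L : ℝ) *
      (Real.cos (Real.pi * j * (t + 1 / 2) / L) *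
      Real.cos (Real.pi * j * (s + 1 / 2) / L)) = 1 / (L : ℝ) *
      ((Real.cos (Real.pi * j * (t + 1 / 2) / L - Real.pi * j * (s + 1 / 2) / L) +
      Real.cos (Real.pi * j * (t + 1 / 2) / L + Real.pi * j * (s + 1 / 2) / L)) -
      (if j = 0 then 1 else 0)) := by
    intro j
    by_cases hj : j = 0
    · subst hj; simp; 
    · rw [if_neg hj, if_neg hj, Real.cos_sub, Real.cos_add]
      ring
  simp_rw [e]
  have hz : ∑ j ∈ Finset.range L, (if j = 0 then (1 : ℝ) else 0) = 1 := by
    rw [Finset.sum_ite_eq' (Finset.range L) 0 (fun _ => (1 : ℝ)), if_pos]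
    exact Finset.mem_range.2 (by omega)
  rw [← Finset.mul_sum, Finset.sum_sub_distrib, hz]
  split_ifs with h
  · subst h
    have h1 := cos_sum (L := L) (m := t + t + 1) (by omega) (by omega)
    have e1 : ∀ j : ℕ, Real.cos (Real.pi * j * (t + 1 / 2) / L + Real.pi * j * (t + 1 / 2) / L) =
        Real.cos (Real.pi * j * ((t + t + 1 : ℕ) : ℝ) / L) := by
      intro j
      congr 1
      push_cast
      ring
    simp_rw [e1, sub_self, Real.cos_zero]
    rw [Finset.sum_add_distrib, h1, ← two_mul, pow_succ, pow_mul]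
    simp
    exact inv_mul_cancel₀ hL'.ne'
  · rcases Nat.lt_or_gt_of_ne h with h2 | h2
    · have := dct_aux h2 hs
      have e1 : ∀ j : ℕ, (Real.cos (Real.pi * j * (t + 1 / 2) / L -
            Real.pi * j * (s + 1 / 2) / L) +
          Real.cos (Real.pi * j * (t + 1 / 2) / L + Real.pi * j * (s + 1 / 2) / L)) =
          (Real.cos (Real.pi * j * (s + 1 / 2) / L - Real.pi * j * (t + 1 / 2) / L) +
          Real.cos (Real.pi * j * (s + 1 / 2) / L + Real.pi * j * (t + 1 / 2) / L)) := by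
        intro j
        rw [← Real.cos_neg (Real.pi * j * (t + 1 / 2) / L - Real.pi * j * (s + 1 / 2) / L),
          neg_sub, add_comm (Real.pi * j * (t + 1 / 2) / L)]
      simp_rw [e1]
      rw [this, sub_self, mul_zero]
    · rw [dct_aux h2 ht, sub_self, mul_zero]

/-! ### Uniqueness for the recursion -/

lemma sinh_rec (ω x : ℝ) : Real.sinh (x + ω) = 2 * Real.cosh ω * Real.sinh x - Real.sinh (x - ω) := by
  rw [Real.sinh_add, Real.sinh_sub]; ring

lemma cosh_rec (ω x : ℝ) : Real.cosh (x + ω) = 2 * Real.cosh ω * Real.cosh x - Real.cosh (x - ω) := by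
  rw [Real.cosh_add, Real.cosh_sub]; ring

lemma uniqD {L : ℕ} (hL : 1 ≤ L) {ω : ℝ} (h0 : 0 < ω) {f : ℕ → ℝ} (f0 : f 0 = 0) (fL : f L = 0)
    (hf : ∀ t, t + 2 ≤ L → f (t + 2) = 2 * Real.cosh ω * f (t + 1) - f t) :
    ∀ t ≤ L, f t = 0 := by
  have hs : 0 < Real.sinh ω := Real.sinh_pos_iff.2 h0
  have h1 : ∀ t, t + 1 ≤ L → f t = f 1 * (Real.sinh (ω * t) / Real.sinh ω) ∧
      f (t + 1) = f 1 * (Real.sinh (ω * (t + 1)) / Real.sinh ω) := by
    intro t
    induction t with
    | zero =>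
      intro _
      refine ⟨by simp [f0], ?_⟩
      simp
      rw [div_self hs.ne', mul_one]
    | succ t ih =>
      intro ht
      obtain ⟨i1, i2⟩ := ih (by omega)
      refine ⟨by rw [i2]; push_cast; rfl, ?_⟩
      rw [hf t (by omega), i1, i2]
      push_cast
      have := sinh_rec ω (ω * ((t : ℝ) + 1))
      rw [show ω * ((t : ℝ) + 1) + ω = ω * ((t : ℝ) + 1 + 1) by ring,
        show ω * ((t : ℝ) + 1) - ω = ω * t by ring] at this
      rw [this]
      ring
  have hf1 : f 1 = 0 := by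
    obtain ⟨n, rfl⟩ : ∃ n, L = n + 1 := ⟨L - 1, by omega⟩
    have := (h1 n le_rfl).2
    rw [fL] at this
    have hp : 0 < Real.sinh (ω * ((n : ℝ) + 1)) / Real.sinh ω :=
      div_pos (Real.sinh_pos_iff.2 (by positivity)) hs
    rcases mul_eq_zero.1 this.symm with h | h
    · exact h
    · exact absurd h hp.ne'
  intro t ht
  rcases Nat.lt_or_ge t L with h | h
  · rw [(h1 t (by omega)).1, hf1, zero_mul]
  · have : t = L := le_antisymm ht h
    rw [this, fL]

lemma uniqN {n : ℕ} {ω : ℝ} (h0 : 0 < ω) {f : ℕ → ℝ}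
    (f1 : f 1 = (2 * Real.cosh ω - 1) * f 0) (fL : f n = (2 * Real.cosh ω - 1) * f (n + 1))
    (hf : ∀ t, t + 2 < n + 2 → f (t + 2) = 2 * Real.cosh ω * f (t + 1) - f t) :
    ∀ t < n + 2, f t = 0 := by
  have hs : 0 < Real.cosh (ω / 2) := Real.cosh_pos _
  have h1 : ∀ t, t + 1 < n + 2 → f t = f 0 * (Real.cosh (ω * (t + 1 / 2)) / Real.cosh (ω / 2)) ∧
      f (t + 1) = f 0 * (Real.cosh (ω * (t + 1 + 1 / 2)) / Real.cosh (ω / 2)) := by
    intro t
    induction t with
    | zero =>
      intro _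
      constructor
      · have : ω * (((0 : ℕ) : ℝ) + 1 / 2) = ω / 2 := by push_cast; ring
        rw [this, div_self hs.ne', mul_one]
      · rw [zero_add, f1]
        have := cosh_rec ω (ω / 2)
        rw [show ω / 2 - ω = -(ω / 2) by ring, Real.cosh_neg] at this
        rw [show ω * (((0 : ℕ) : ℝ) + 1 + 1 / 2) = ω / 2 + ω by push_cast; ring, this]
        field_simp
    | succ t ih =>
      intro ht
      obtain ⟨i1, i2⟩ := ih (by omega)
      refine ⟨by rw [i2]; push_cast; rfl, ?_⟩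
      rw [hf t (by omega), i1, i2]
      push_cast
      have := cosh_rec ω (ω * ((t : ℝ) + 1 + 1 / 2))
      rw [show ω * ((t : ℝ) + 1 + 1 / 2) + ω = ω * ((t : ℝ) + 1 + 1 + 1 / 2) by ring,
        show ω * ((t : ℝ) + 1 + 1 / 2) - ω = ω * (t + 1 / 2) by ring] at this
      rw [this]
      ring
  have hf0 : f 0 = 0 := by
    obtain ⟨i1, i2⟩ := h1 n (by omega)
    rw [i1, i2] at fL
    have h2 := cosh_rec ω (ω * ((n : ℝ) + 1 + 1 / 2))
    rw [show ω * ((n : ℝ) + 1 + 1 / 2) - ω = ω * (n + 1 / 2) by ring] at h2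
    have h3 : Real.cosh (ω * ((n : ℝ) + 1 + 1 / 2)) < Real.cosh (ω * ((n : ℝ) + 1 + 1 / 2) + ω) := by
      rw [Real.cosh_lt_cosh, abs_of_pos (by positivity), abs_of_pos (by positivity)]
      linarith
    have h4 : f 0 * ((Real.cosh (ω * ((n : ℝ) + 1 + 1 / 2) + ω) -
        Real.cosh (ω * ((n : ℝ) + 1 + 1 / 2))) / Real.cosh (ω / 2)) = 0 := by
      rw [h2]
      linear_combination -fL
    rcases mul_eq_zero.1 h4 with h | h
    · exact h
    · exact absurd h (div_pos (by linarith) hs).ne'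
  intro t ht
  rcases Nat.lt_or_ge (t + 1) (n + 2) with h | h
  · rw [(h1 t h).1, hf0, zero_mul]
  · have : t = n + 1 := by omega
    rw [this, (h1 n (by omega)).2, hf0, zero_mul]

/-! ### The equations of the Green functions -/

lemma GD_rec {L : ℕ} (hL : 1 ≤ L) {ω : ℝ} (h0 : 0 < ω) (t s : ℕ) :
    GD L ω (t + 2) s = 2 * Real.cosh ω * GD L ω (t + 1) s - GD L ω t s -
      (if s = t + 1 then 1 else 0) := by
  have hs : Real.sinh ω ≠ 0 := (Real.sinh_pos_iff.2 h0).ne'
  have hL' : (0 : ℝ) < L := by exact_mod_cast (by omega : 0 < L)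
  have hs2 : Real.sinh (ω * L) ≠ 0 := (Real.sinh_pos_iff.2 (by positivity)).ne'
  unfold GD
  rcases lt_trichotomy s (t + 1) with h | h | h
  · rw [if_neg (by omega), min_eq_right (by omega : s ≤ t + 2), max_eq_left (by omega : s ≤ t + 2),
      min_eq_right (by omega : s ≤ t + 1), max_eq_left (by omega : s ≤ t + 1),
      min_eq_right (by omega : s ≤ t), max_eq_left (by omega : s ≤ t)]
    push_cast
    have := sinh_rec ω (ω * (L - ((t : ℝ) + 1)))
    rw [show ω * ((L : ℝ) - ((t : ℝ) + 1)) + ω = ω * (L - t) by ring,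
      show ω * ((L : ℝ) - ((t : ℝ) + 1)) - ω = ω * (L - (t + 2)) by ring] at this
    rw [this]
    field_simp
    ring
  · subst h
    rw [if_pos rfl, min_eq_right (by omega : t + 1 ≤ t + 2), max_eq_left (by omega : t + 1 ≤ t + 2),
      min_self, max_self, min_eq_left (by omega : t ≤ t + 1), max_eq_right (by omega : t ≤ t + 1)]
    push_cast
    have h1 := sinh_rec ω (ω * (L - ((t : ℝ) + 1)))
    rw [show ω * ((L : ℝ) - ((t : ℝ) + 1)) + ω = ω * (L - t) by ring,
      show ω * ((L : ℝ) - ((t : ℝ) + 1)) - ω = ω * (L - (t + 2)) by ring] at h1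
    have h2 : Real.sinh (ω * (t + 1)) * Real.sinh (ω * (L - t)) -
        Real.sinh (ω * t) * Real.sinh (ω * (L - (t + 1))) = Real.sinh ω * Real.sinh (ω * L) := by
      have e1 : ω * ((t : ℝ) + 1) = ω * t + ω := by ring
      have e2 : ω * ((L : ℝ) - t) = ω * L - ω * t := by ring
      have e3 : ω * ((L : ℝ) - (t + 1)) = ω * L - (ω * t + ω) := by ring
      rw [e1, e2, e3, Real.sinh_sub, Real.sinh_sub, Real.sinh_add, Real.cosh_add]
      have := Real.cosh_sq (ω * t)
      linear_combination (Real.sinh ω * Real.sinh (ω * L)) * this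
    have h3 : Real.sinh (ω * (L - (t + 2))) = 2 * Real.cosh ω * Real.sinh (ω * (L - (t + 1))) -
        Real.sinh (ω * (L - t)) := by linarith
    rw [h3]
    field_simp
    linear_combination -h2
  · rw [if_neg (by omega), min_eq_left (by omega : t + 2 ≤ s), max_eq_right (by omega : t + 2 ≤ s),
      min_eq_left (by omega : t + 1 ≤ s), max_eq_right (by omega : t + 1 ≤ s),
      min_eq_left (by omega : t ≤ s), max_eq_right (by omega : t ≤ s)]
    push_cast
    have := sinh_rec ω (ω * ((t : ℝ) + 1))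
    rw [show ω * ((t : ℝ) + 1) + ω = ω * (t + 2) by ring,
      show ω * ((t : ℝ) + 1) - ω = ω * t by ring] at this
    rw [this]
    ring

lemma GN_rec {L : ℕ} (hL : 1 ≤ L) {ω : ℝ} (h0 : 0 < ω) (t s : ℕ) :
    GN L ω (t + 2) s = 2 * Real.cosh ω * GN L ω (t + 1) s - GN L ω t s -
      (if s = t + 1 then 1 else 0) := by
  have hs : Real.sinh ω ≠ 0 := (Real.sinh_pos_iff.2 h0).ne'
  have hL' : (0 : ℝ) < L := by exact_mod_cast (by omega : 0 < L)
  have hs2 : Real.sinh (ω * L) ≠ 0 := (Real.sinh_pos_iff.2 (by positivity)).ne'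
  unfold GN
  rcases lt_trichotomy s (t + 1) with h | h | h
  · rw [if_neg (by omega), min_eq_right (by omega : s ≤ t + 2), max_eq_left (by omega : s ≤ t + 2),
      min_eq_right (by omega : s ≤ t + 1), max_eq_left (by omega : s ≤ t + 1),
      min_eq_right (by omega : s ≤ t), max_eq_left (by omega : s ≤ t)]
    push_cast
    have := cosh_rec ω (ω * (L - 1 / 2 - ((t : ℝ) + 1)))
    rw [show ω * ((L : ℝ) - 1 / 2 - ((t : ℝ) + 1)) + ω = ω * (L - 1 / 2 - t) by ring,
      show ω * ((L : ℝ) - 1 / 2 - ((t : ℝ) + 1)) - ω = ω * (L - 1 / 2 - (t + 2)) by ring] at this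
    rw [this]
    field_simp
    ring
  · subst h
    rw [if_pos rfl, min_eq_right (by omega : t + 1 ≤ t + 2), max_eq_left (by omega : t + 1 ≤ t + 2),
      min_self, max_self, min_eq_left (by omega : t ≤ t + 1), max_eq_right (by omega : t ≤ t + 1)]
    push_cast
    have h1 := cosh_rec ω (ω * (L - 1 / 2 - ((t : ℝ) + 1)))
    rw [show ω * ((L : ℝ) - 1 / 2 - ((t : ℝ) + 1)) + ω = ω * (L - 1 / 2 - t) by ring,
      show ω * ((L : ℝ) - 1 / 2 - ((t : ℝ) + 1)) - ω = ω * (L - 1 / 2 - (t + 2)) by ring] at h1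
    have h2 : Real.cosh (ω * (t + 1 + 1 / 2)) * Real.cosh (ω * (L - 1 / 2 - t)) -
        Real.cosh (ω * (t + 1 / 2)) * Real.cosh (ω * (L - 1 / 2 - (t + 1))) =
        Real.sinh ω * Real.sinh (ω * L) := by
      have e1 : ω * ((t : ℝ) + 1 + 1 / 2) = ω * (t + 1 / 2) + ω := by ring
      have e2 : ω * ((L : ℝ) - 1 / 2 - t) = ω * L - ω * (t + 1 / 2) := by ring
      have e3 : ω * ((L : ℝ) - 1 / 2 - (t + 1)) = ω * L - (ω * (t + 1 / 2) + ω) := by ring
      rw [e1, e2, e3, Real.cosh_sub, Real.cosh_sub, Real.sinh_add, Real.cosh_add]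
      have := Real.cosh_sq (ω * (t + 1 / 2))
      linear_combination (Real.sinh ω * Real.sinh (ω * L)) * this
    have h3 : Real.cosh (ω * (L - 1 / 2 - (t + 2))) =
        2 * Real.cosh ω * Real.cosh (ω * (L - 1 / 2 - (t + 1))) -
        Real.cosh (ω * (L - 1 / 2 - t)) := by linarith
    rw [h3]
    generalize Real.cosh (ω * ((t : ℝ) + 1 + 1 / 2)) = A at h2 ⊢
    generalize Real.cosh (ω * ((L : ℝ) - 1 / 2 - t)) = B at h2 ⊢
    generalize Real.cosh (ω * ((t : ℝ) + 1 / 2)) = C at h2 ⊢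
    generalize Real.cosh (ω * ((L : ℝ) - 1 / 2 - (t + 1))) = D at h2 ⊢
    field_simp
    linear_combination -h2
  · rw [if_neg (by omega), min_eq_left (by omega : t + 2 ≤ s), max_eq_right (by omega : t + 2 ≤ s),
      min_eq_left (by omega : t + 1 ≤ s), max_eq_right (by omega : t + 1 ≤ s),
      min_eq_left (by omega : t ≤ s), max_eq_right (by omega : t ≤ s)]
    push_cast
    have := cosh_rec ω (ω * ((t : ℝ) + 1 + 1 / 2))
    rw [show ω * ((t : ℝ) + 1 + 1 / 2) + ω = ω * (t + 2 + 1 / 2) by ring,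
      show ω * ((t : ℝ) + 1 + 1 / 2) - ω = ω * (t + 1 / 2) by ring] at this
    rw [this]
    ring

end

end Pool.Agent.Y427.AF
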