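import Mathlib
import Pool.Agent.Y16.AF.StmA
import Pool.Agent.Y427.AF.Spec

/-! Spectral representation of the Green functions on an interval, conclusion. -/

namespace Pool.Agent.Y427.AF

open Pool.Agent.Y16.AF

noncomputable section

lemma GN_left {L : ℕ} (hL : 1 ≤ L) {ω : ℝ} (h0 : 0 < ω) (s : ℕ) :
    GN L ω 1 s = (2 * Real.cosh ω - 1) * GN L ω 0 s - (if s = 0 then 1 else 0) := by
  have hs : Real.sinh ω ≠ 0 := (Real.sinh_pos_iff.2 h0).ne'
  have hL' : (0 : ℝ) < L := by exact_mod_cast (by omega : 0 < L)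
  have hs2 : Real.sinh (ω * L) ≠ 0 := (Real.sinh_pos_iff.2 (by positivity)).ne'
  unfold GN
  rcases Nat.eq_zero_or_pos s with h | h
  · subst h
    rw [if_pos rfl, min_eq_right (by omega : 0 ≤ 1), max_eq_left (by omega : 0 ≤ 1), min_self,
      max_self]
    push_cast
    have h2 : Real.cosh (ω * (0 + 1 / 2)) * (2 * Real.cosh ω * Real.cosh (ω * (L - 1 / 2 - 0)) -
        Real.cosh (ω * (L - 1 / 2 - 0)) - Real.cosh (ω * (L - 1 / 2 - 1))) =
        Real.sinh ω * Real.sinh (ω * L) := by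
      have h1 := cosh_rec ω (ω * ((L : ℝ) - 1 / 2 - 0))
      rw [show ω * ((L : ℝ) - 1 / 2 - 0) - ω = ω * (L - 1 / 2 - 1) by ring] at h1
      have e1 : ω * ((L : ℝ) - 1 / 2 - 0) + ω = ω * L + ω / 2 := by ring
      have e2 : ω * ((L : ℝ) - 1 / 2 - 0) = ω * L - ω / 2 := by ring
      have e3 : 2 * Real.cosh ω * Real.cosh (ω * (L - 1 / 2 - 0)) -
        Real.cosh (ω * (L - 1 / 2 - 0)) - Real.cosh (ω * (L - 1 / 2 - 1)) =
        Real.cosh (ω * L + ω / 2) - Real.cosh (ω * L - ω / 2) := by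
        rw [← e1, ← e2, h1]; ring
      rw [e3, Real.cosh_add, Real.cosh_sub, show ω * (0 + 1 / 2) = ω / 2 by ring]
      have e4 : Real.sinh ω = 2 * Real.sinh (ω / 2) * Real.cosh (ω / 2) := by
        rw [← Real.sinh_two_mul]; congr 1; ring
      rw [e4]; ring
    generalize Real.cosh (ω * (0 + 1 / 2)) = A at h2 ⊢
    generalize Real.cosh (ω * ((L : ℝ) - 1 / 2 - 0)) = B at h2 ⊢
    generalize Real.cosh (ω * ((L : ℝ) - 1 / 2 - 1)) = C at h2 ⊢
    field_simp
    linear_combination -h2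
  · rw [if_neg (by omega), min_eq_left (by omega : 1 ≤ s), max_eq_right (by omega : 1 ≤ s),
      min_eq_left (by omega : 0 ≤ s), max_eq_right (by omega : 0 ≤ s)]
    push_cast
    have := cosh_rec ω (ω * (0 + 1 / 2))
    rw [show ω * (0 + 1 / 2) + ω = ω * (1 + 1 / 2) by ring,
      show ω * (0 + 1 / 2) - ω = -(ω * (0 + 1 / 2)) by ring, Real.cosh_neg] at this
    rw [this]
    ring

lemma GN_right {n : ℕ} {ω : ℝ} (h0 : 0 < ω) {s : ℕ} (hs' : s < n + 2) :
    GN (n + 2) ω n s = (2 * Real.cosh ω - 1) * GN (n + 2) ω (n + 1) s -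
      (if s = n + 1 then 1 else 0) := by
  have hs : Real.sinh ω ≠ 0 := (Real.sinh_pos_iff.2 h0).ne'
  have hs2 : Real.sinh (ω * ((n + 2 : ℕ) : ℝ)) ≠ 0 := (Real.sinh_pos_iff.2 (by positivity)).ne'
  unfold GN
  rcases Nat.lt_or_ge s (n + 1) with h | h
  · rw [if_neg (by omega), min_eq_right (by omega : s ≤ n), max_eq_left (by omega : s ≤ n),
      min_eq_right (by omega : s ≤ n + 1), max_eq_left (by omega : s ≤ n + 1)]
    have := cosh_rec ω (ω / 2)
    rw [show ω / 2 - ω = -(ω / 2) by ring, Real.cosh_neg] at this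
    rw [show ω * (((n + 2 : ℕ) : ℝ) - 1 / 2 - (n : ℕ)) = ω / 2 + ω by push_cast; ring,
      show ω * (((n + 2 : ℕ) : ℝ) - 1 / 2 - ((n + 1 : ℕ) : ℝ)) = ω / 2 by push_cast; ring, this]
    ring
  · obtain rfl : s = n + 1 := by omega
    rw [if_pos rfl, min_eq_left (by omega : n ≤ n + 1), max_eq_right (by omega : n ≤ n + 1),
      min_self, max_self]
    have e0 : ω * (((n + 2 : ℕ) : ℝ) - 1 / 2 - ((n + 1 : ℕ) : ℝ)) = ω / 2 := by push_cast; ring
    have e1 : ω * (((n + 1 : ℕ) : ℝ) + 1 / 2) = ω * ((n + 2 : ℕ) : ℝ) - ω / 2 := by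
      push_cast; ring
    have e2 : ω * (((n : ℕ) : ℝ) + 1 / 2) = ω * ((n + 2 : ℕ) : ℝ) - ω / 2 - ω := by
      push_cast; ring
    rw [e0, e1, e2]
    generalize hy : ω * ((n + 2 : ℕ) : ℝ) = y at hs2 ⊢
    have h1 := cosh_rec ω (y - ω / 2)
    rw [show y - ω / 2 + ω = y + ω / 2 by ring] at h1
    have h3 : Real.cosh (y + ω / 2) - Real.cosh (y - ω / 2) = 2 * Real.sinh y * Real.sinh (ω / 2) := by
      rw [Real.cosh_add, Real.cosh_sub]; ring
    have e4 : Real.sinh ω = 2 * Real.sinh (ω / 2) * Real.cosh (ω / 2) := by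
      rw [← Real.sinh_two_mul]; congr 1; ring
    have h2 : Real.cosh (ω / 2) * (2 * Real.cosh ω * Real.cosh (y - ω / 2) -
        Real.cosh (y - ω / 2) - Real.cosh (y - ω / 2 - ω)) = Real.sinh ω * Real.sinh y := by
      rw [e4]
      linear_combination Real.cosh (ω / 2) * h3 - Real.cosh (ω / 2) * h1
    clear h1 h3 e4
    generalize Real.cosh (ω / 2) = A at h2 ⊢
    generalize Real.cosh (y - ω / 2) = B at h2 ⊢
    generalize Real.cosh (y - ω / 2 - ω) = C at h2 ⊢
    field_simp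
    linear_combination -h2

/-- The eigenvalues. -/
def lam (L : ℕ) (ω : ℝ) (j : ℕ) : ℝ :=
  2 - 2 * Real.cos (Real.pi * j / L) + (2 * Real.cosh ω - 2)

lemma lam_pos {L : ℕ} {ω : ℝ} (h0 : 0 < ω) (j : ℕ) : 0 < lam L ω j := by
  unfold lam
  have h1 : 1 < Real.cosh ω := Real.one_lt_cosh.2 h0.ne'
  have h2 := Real.cos_le_one (Real.pi * j / L)
  linarith

lemma AD {L : ℕ} (hL : 2 ≤ L) {ω : ℝ} (h0 : 0 < ω) (j : ℕ) {t : ℕ} (ht : t ≤ L) :
    ∑ s ∈ Finset.range L, GD L ω t s * Real.sin (Real.pi * j * s / L) =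
      Real.sin (Real.pi * j * t / L) / lam L ω j := by
  have hl := lam_pos (L := L) h0 j
  have hL' : (0 : ℝ) < L := by exact_mod_cast (by omega : 0 < L)
  have key := uniqD (L := L) (by omega) h0
    (f := fun t => ∑ s ∈ Finset.range L, GD L ω t s * Real.sin (Real.pi * j * s / L) -
      Real.sin (Real.pi * j * t / L) / lam L ω j) ?_ ?_ ?_ t ht
  · exact sub_eq_zero.1 key
  · skip
    have : ∀ s ∈ Finset.range L, GD L ω 0 s * Real.sin (Real.pi * j * s / L) = 0 := by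
      intro s _
      unfold GD
      rw [min_eq_left (Nat.zero_le s)]
      simp
    rw [Finset.sum_eq_zero this]
    simp
  · skip
    have : ∀ s ∈ Finset.range L, GD L ω L s * Real.sin (Real.pi * j * s / L) = 0 := by
      intro s hs
      unfold GD
      rw [max_eq_left (Finset.mem_range.1 hs).le]
      simp
    rw [Finset.sum_eq_zero this, mul_div_assoc, div_self hL'.ne', mul_one,
      mul_comm, Real.sin_nat_mul_pi]
    simp
  · intro t ht2
    skip
    have e1 : ∑ s ∈ Finset.range L, GD L ω (t + 2) s * Real.sin (Real.pi * j * s / L) =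
        2 * Real.cosh ω * (∑ s ∈ Finset.range L, GD L ω (t + 1) s *
          Real.sin (Real.pi * j * s / L)) - (∑ s ∈ Finset.range L, GD L ω t s *
          Real.sin (Real.pi * j * s / L)) - Real.sin (Real.pi * j * ((t + 1 : ℕ) : ℝ) / L) := by
      have e2 : ∑ s ∈ Finset.range L, (if s = t + 1 then Real.sin (Real.pi * j * s / L) else 0) =
          Real.sin (Real.pi * j * ((t + 1 : ℕ) : ℝ) / L) := by
        rw [Finset.sum_ite_eq' (Finset.range L) (t + 1)
          (fun s : ℕ => Real.sin (Real.pi * j * s / L)), if_pos (Finset.mem_range.2 (by omega))]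
      rw [← e2, Finset.mul_sum, ← Finset.sum_sub_distrib, ← Finset.sum_sub_distrib]
      apply Finset.sum_congr rfl
      intro s _
      rw [GD_rec (by omega) h0]
      split_ifs <;> ring
    have e3 : Real.sin (Real.pi * j * ((t + 2 : ℕ) : ℝ) / L) =
        2 * Real.cos (Real.pi * j / L) * Real.sin (Real.pi * j * ((t + 1 : ℕ) : ℝ) / L) -
          Real.sin (Real.pi * j * t / L) := by
      have a1 : Real.pi * j * ((t + 2 : ℕ) : ℝ) / L =
          Real.pi * j * ((t + 1 : ℕ) : ℝ) / L + Real.pi * j / L := by push_cast; ring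
      have a2 : Real.pi * j * t / L =
          Real.pi * j * ((t + 1 : ℕ) : ℝ) / L - Real.pi * j / L := by push_cast; ring
      rw [a1, a2, Real.sin_add, Real.sin_sub]
      ring
    rw [e1, e3]
    have e4 : 2 * Real.cosh ω = lam L ω j + 2 * Real.cos (Real.pi * j / L) := by
      unfold lam; ring
    rw [e4]
    field_simp
    ring

lemma AN {L : ℕ} (hL : 2 ≤ L) {ω : ℝ} (h0 : 0 < ω) (j : ℕ) {t : ℕ} (ht : t < L) :
    ∑ s ∈ Finset.range L, GN L ω t s * Real.cos (Real.pi * j * (s + 1 / 2) / L) =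
      Real.cos (Real.pi * j * (t + 1 / 2) / L) / lam L ω j := by
  have hl := lam_pos (L := L) h0 j
  have hL' : (0 : ℝ) < L := by exact_mod_cast (by omega : 0 < L)
  obtain ⟨n, rfl⟩ : ∃ n, L = n + 2 := ⟨L - 2, by omega⟩
  have e4 : 2 * Real.cosh ω = lam (n + 2) ω j + 2 * Real.cos (Real.pi * j / ((n + 2 : ℕ) : ℝ)) := by
    unfold lam; ring
  have key := uniqN (n := n) h0
    (f := fun t => ∑ s ∈ Finset.range (n + 2), GN (n + 2) ω t s *
      Real.cos (Real.pi * j * (s + 1 / 2) / ((n + 2 : ℕ) : ℝ)) -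
      Real.cos (Real.pi * j * (t + 1 / 2) / ((n + 2 : ℕ) : ℝ)) / lam (n + 2) ω j) ?_ ?_ ?_ t ht
  · exact sub_eq_zero.1 key
  · skip
    have e2 : ∑ s ∈ Finset.range (n + 2), (if s = 0 then
        Real.cos (Real.pi * j * (s + 1 / 2) / ((n + 2 : ℕ) : ℝ)) else 0) =
        Real.cos (Real.pi * j * (((0 : ℕ) : ℝ) + 1 / 2) / ((n + 2 : ℕ) : ℝ)) := by
      rw [Finset.sum_ite_eq' (Finset.range (n + 2)) 0
        (fun s : ℕ => Real.cos (Real.pi * j * (s + 1 / 2) / ((n + 2 : ℕ) : ℝ))),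
        if_pos (Finset.mem_range.2 (by omega))]
    have e1 : ∑ s ∈ Finset.range (n + 2), GN (n + 2) ω 1 s *
        Real.cos (Real.pi * j * (s + 1 / 2) / ((n + 2 : ℕ) : ℝ)) =
        (2 * Real.cosh ω - 1) * (∑ s ∈ Finset.range (n + 2), GN (n + 2) ω 0 s *
          Real.cos (Real.pi * j * (s + 1 / 2) / ((n + 2 : ℕ) : ℝ))) -
          Real.cos (Real.pi * j * (((0 : ℕ) : ℝ) + 1 / 2) / ((n + 2 : ℕ) : ℝ)) := by
      rw [← e2, Finset.mul_sum, ← Finset.sum_sub_distrib]
      apply Finset.sum_congr rfl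
      intro s _
      rw [GN_left (by omega) h0]
      split_ifs <;> ring
    have e3 : Real.cos (Real.pi * j * (((1 : ℕ) : ℝ) + 1 / 2) / ((n + 2 : ℕ) : ℝ)) =
        2 * Real.cos (Real.pi * j / ((n + 2 : ℕ) : ℝ)) *
          Real.cos (Real.pi * j * (((0 : ℕ) : ℝ) + 1 / 2) / ((n + 2 : ℕ) : ℝ)) -
          Real.cos (Real.pi * j * (((0 : ℕ) : ℝ) + 1 / 2) / ((n + 2 : ℕ) : ℝ)) := by
      have a1 : Real.pi * j * (((1 : ℕ) : ℝ) + 1 / 2) / ((n + 2 : ℕ) : ℝ) =
          Real.pi * j * (((0 : ℕ) : ℝ) + 1 / 2) / ((n + 2 : ℕ) : ℝ) +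
            Real.pi * j / ((n + 2 : ℕ) : ℝ) := by push_cast; ring
      have a2 : Real.cos (Real.pi * j * (((0 : ℕ) : ℝ) + 1 / 2) / ((n + 2 : ℕ) : ℝ)) =
          Real.cos (Real.pi * j * (((0 : ℕ) : ℝ) + 1 / 2) / ((n + 2 : ℕ) : ℝ) -
            Real.pi * j / ((n + 2 : ℕ) : ℝ)) := by
        rw [← Real.cos_neg]; congr 1; push_cast; ring
      have a3 : Real.cos (Real.pi * j * (((0 : ℕ) : ℝ) + 1 / 2) / ((n + 2 : ℕ) : ℝ) +
            Real.pi * j / ((n + 2 : ℕ) : ℝ)) +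
          Real.cos (Real.pi * j * (((0 : ℕ) : ℝ) + 1 / 2) / ((n + 2 : ℕ) : ℝ) -
            Real.pi * j / ((n + 2 : ℕ) : ℝ)) =
          2 * Real.cos (Real.pi * j / ((n + 2 : ℕ) : ℝ)) *
          Real.cos (Real.pi * j * (((0 : ℕ) : ℝ) + 1 / 2) / ((n + 2 : ℕ) : ℝ)) := by
        rw [Real.cos_add, Real.cos_sub]; ring
      rw [← a2] at a3
      rw [a1]
      linarith
    rw [e1, e3, e4]
    generalize Real.cos (Real.pi * j * (((0 : ℕ) : ℝ) + 1 / 2) / ((n + 2 : ℕ) : ℝ)) = c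
    generalize Real.cos (Real.pi * j / ((n + 2 : ℕ) : ℝ)) = d
    field_simp
    ring
  · skip
    have e2 : ∑ s ∈ Finset.range (n + 2), (if s = n + 1 then
        Real.cos (Real.pi * j * (s + 1 / 2) / ((n + 2 : ℕ) : ℝ)) else 0) =
        Real.cos (Real.pi * j * (((n + 1 : ℕ) : ℝ) + 1 / 2) / ((n + 2 : ℕ) : ℝ)) := by
      rw [Finset.sum_ite_eq' (Finset.range (n + 2)) (n + 1)
        (fun s : ℕ => Real.cos (Real.pi * j * (s + 1 / 2) / ((n + 2 : ℕ) : ℝ))),
        if_pos (Finset.mem_range.2 (by omega))]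
    have e1 : ∑ s ∈ Finset.range (n + 2), GN (n + 2) ω n s *
        Real.cos (Real.pi * j * (s + 1 / 2) / ((n + 2 : ℕ) : ℝ)) =
        (2 * Real.cosh ω - 1) * (∑ s ∈ Finset.range (n + 2), GN (n + 2) ω (n + 1) s *
          Real.cos (Real.pi * j * (s + 1 / 2) / ((n + 2 : ℕ) : ℝ))) -
          Real.cos (Real.pi * j * (((n + 1 : ℕ) : ℝ) + 1 / 2) / ((n + 2 : ℕ) : ℝ)) := by
      rw [← e2, Finset.mul_sum, ← Finset.sum_sub_distrib]
      apply Finset.sum_congr rfl
      intro s hs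
      rw [GN_right h0 (Finset.mem_range.1 hs)]
      split_ifs <;> ring
    have e3 : Real.cos (Real.pi * j * ((n : ℝ) + 1 / 2) / ((n + 2 : ℕ) : ℝ)) =
        2 * Real.cos (Real.pi * j / ((n + 2 : ℕ) : ℝ)) *
          Real.cos (Real.pi * j * (((n + 1 : ℕ) : ℝ) + 1 / 2) / ((n + 2 : ℕ) : ℝ)) -
          Real.cos (Real.pi * j * (((n + 1 : ℕ) : ℝ) + 1 / 2) / ((n + 2 : ℕ) : ℝ)) := by
      have a1 : Real.pi * j * ((n : ℝ) + 1 / 2) / ((n + 2 : ℕ) : ℝ) =
          Real.pi * j * (((n + 1 : ℕ) : ℝ) + 1 / 2) / ((n + 2 : ℕ) : ℝ) -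
            Real.pi * j / ((n + 2 : ℕ) : ℝ) := by push_cast; ring
      have a2 : Real.cos (Real.pi * j * (((n + 1 : ℕ) : ℝ) + 1 / 2) / ((n + 2 : ℕ) : ℝ)) =
          Real.cos (Real.pi * j * (((n + 1 : ℕ) : ℝ) + 1 / 2) / ((n + 2 : ℕ) : ℝ) +
            Real.pi * j / ((n + 2 : ℕ) : ℝ)) := by
        have b1 : Real.pi * j * (((n + 1 : ℕ) : ℝ) + 1 / 2) / ((n + 2 : ℕ) : ℝ) =
            j * Real.pi - Real.pi * j / ((n + 2 : ℕ) : ℝ) / 2 := by
          have : (((n + 2 : ℕ) : ℝ)) ≠ 0 := hL'.ne'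
          push_cast at this ⊢
          field_simp
          ring
        have b2 : Real.pi * j * (((n + 1 : ℕ) : ℝ) + 1 / 2) / ((n + 2 : ℕ) : ℝ) +
            Real.pi * j / ((n + 2 : ℕ) : ℝ) =
            j * Real.pi + Real.pi * j / ((n + 2 : ℕ) : ℝ) / 2 := by
          rw [b1]; ring
        rw [b2, b1, Real.cos_add, Real.cos_sub, Real.sin_nat_mul_pi]
        ring
      have a3 : Real.cos (Real.pi * j * (((n + 1 : ℕ) : ℝ) + 1 / 2) / ((n + 2 : ℕ) : ℝ) +
            Real.pi * j / ((n + 2 : ℕ) : ℝ)) +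
          Real.cos (Real.pi * j * (((n + 1 : ℕ) : ℝ) + 1 / 2) / ((n + 2 : ℕ) : ℝ) -
            Real.pi * j / ((n + 2 : ℕ) : ℝ)) =
          2 * Real.cos (Real.pi * j / ((n + 2 : ℕ) : ℝ)) *
          Real.cos (Real.pi * j * (((n + 1 : ℕ) : ℝ) + 1 / 2) / ((n + 2 : ℕ) : ℝ)) := by
        rw [Real.cos_add, Real.cos_sub]; ring
      rw [← a2] at a3
      rw [a1]
      linarith
    rw [e1, e3, e4]
    generalize Real.cos (Real.pi * j * (((n + 1 : ℕ) : ℝ) + 1 / 2) / ((n + 2 : ℕ) : ℝ)) = c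
    generalize Real.cos (Real.pi * j / ((n + 2 : ℕ) : ℝ)) = d
    field_simp
    ring
  · intro t ht2
    skip
    have e1 : ∑ s ∈ Finset.range (n + 2), GN (n + 2) ω (t + 2) s *
        Real.cos (Real.pi * j * (s + 1 / 2) / ((n + 2 : ℕ) : ℝ)) =
        2 * Real.cosh ω * (∑ s ∈ Finset.range (n + 2), GN (n + 2) ω (t + 1) s *
          Real.cos (Real.pi * j * (s + 1 / 2) / ((n + 2 : ℕ) : ℝ))) -
          (∑ s ∈ Finset.range (n + 2), GN (n + 2) ω t s *
          Real.cos (Real.pi * j * (s + 1 / 2) / ((n + 2 : ℕ) : ℝ))) -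
          Real.cos (Real.pi * j * (((t + 1 : ℕ) : ℝ) + 1 / 2) / ((n + 2 : ℕ) : ℝ)) := by
      have e2 : ∑ s ∈ Finset.range (n + 2), (if s = t + 1 then
          Real.cos (Real.pi * j * (s + 1 / 2) / ((n + 2 : ℕ) : ℝ)) else 0) =
          Real.cos (Real.pi * j * (((t + 1 : ℕ) : ℝ) + 1 / 2) / ((n + 2 : ℕ) : ℝ)) := by
        rw [Finset.sum_ite_eq' (Finset.range (n + 2)) (t + 1)
          (fun s : ℕ => Real.cos (Real.pi * j * (s + 1 / 2) / ((n + 2 : ℕ) : ℝ))),
          if_pos (Finset.mem_range.2 (by omega))]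
      rw [← e2, Finset.mul_sum, ← Finset.sum_sub_distrib, ← Finset.sum_sub_distrib]
      apply Finset.sum_congr rfl
      intro s _
      rw [GN_rec (by omega) h0]
      split_ifs <;> ring
    have e3 : Real.cos (Real.pi * j * (((t + 2 : ℕ) : ℝ) + 1 / 2) / ((n + 2 : ℕ) : ℝ)) =
        2 * Real.cos (Real.pi * j / ((n + 2 : ℕ) : ℝ)) *
          Real.cos (Real.pi * j * (((t + 1 : ℕ) : ℝ) + 1 / 2) / ((n + 2 : ℕ) : ℝ)) -
          Real.cos (Real.pi * j * ((t : ℝ) + 1 / 2) / ((n + 2 : ℕ) : ℝ)) := by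
      have a1 : Real.pi * j * (((t + 2 : ℕ) : ℝ) + 1 / 2) / ((n + 2 : ℕ) : ℝ) =
          Real.pi * j * (((t + 1 : ℕ) : ℝ) + 1 / 2) / ((n + 2 : ℕ) : ℝ) +
            Real.pi * j / ((n + 2 : ℕ) : ℝ) := by push_cast; ring
      have a2 : Real.pi * j * ((t : ℝ) + 1 / 2) / ((n + 2 : ℕ) : ℝ) =
          Real.pi * j * (((t + 1 : ℕ) : ℝ) + 1 / 2) / ((n + 2 : ℕ) : ℝ) -
            Real.pi * j / ((n + 2 : ℕ) : ℝ) := by push_cast; ring
      rw [a1, a2, Real.cos_add, Real.cos_sub]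
      ring
    rw [e1, e3, e4]
    generalize Real.cos (Real.pi * j * (((t + 1 : ℕ) : ℝ) + 1 / 2) / ((n + 2 : ℕ) : ℝ)) = c
    generalize Real.cos (Real.pi * j * ((t : ℝ) + 1 / 2) / ((n + 2 : ℕ) : ℝ)) = c'
    generalize Real.cos (Real.pi * j / ((n + 2 : ℕ) : ℝ)) = d
    field_simp
    ring

/-! ### Completeness -/

/-- Expansion in a complete system. -/
lemma expand {L : ℕ} (w : ℕ → ℝ) (v : ℕ → ℕ → ℝ) (g : ℕ → ℝ)
    (hc : ∀ t < L, ∀ s < L, g t * g s * (∑ j ∈ Finset.range L, w j * (v j t * v j s)) =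
      if t = s then g t * g s else 0) :
    ∑ s ∈ Finset.range L, g s ^ 2 =
      ∑ j ∈ Finset.range L, w j * (∑ s ∈ Finset.range L, g s * v j s) ^ 2 := by
  have h1 : ∀ j ∈ Finset.range L, w j * (∑ s ∈ Finset.range L, g s * v j s) ^ 2 =
      ∑ t ∈ Finset.range L, ∑ s ∈ Finset.range L, g t * g s * (w j * (v j t * v j s)) := by
    intro j _
    rw [pow_two, Finset.sum_mul_sum, Finset.mul_sum]
    apply Finset.sum_congr rfl
    intro t _
    rw [Finset.mul_sum]
    apply Finset.sum_congr rfl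
    intro s _
    ring
  rw [Finset.sum_congr rfl h1, Finset.sum_comm]
  apply Finset.sum_congr rfl
  intro t ht
  rw [Finset.sum_comm]
  have h2 : ∀ s ∈ Finset.range L, ∑ j ∈ Finset.range L, g t * g s * (w j * (v j t * v j s)) =
      if t = s then g t * g s else 0 := by
    intro s hs
    rw [← Finset.mul_sum]
    exact hc t (Finset.mem_range.1 ht) s (Finset.mem_range.1 hs)
  rw [Finset.sum_congr rfl h2, Finset.sum_ite_eq, if_pos ht]
  ring

theorem af_spec : S_SPEC := by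
  intro L hL ω h0
  have hL' : (0 : ℝ) < L := by exact_mod_cast (by omega : 0 < L)
  have g0 : ∀ s, GD L ω 0 s = 0 := by
    intro s; unfold GD; rw [min_eq_left (Nat.zero_le s)]; simp
  have g0' : ∀ s, GD L ω s 0 = 0 := by
    intro s; unfold GD; rw [min_eq_right (Nat.zero_le s)]; simp
  refine ⟨?_, ?_, ?_, ?_⟩
  · intro t ht
    have h1 : ∀ j ∈ Finset.range L, 2 / (L : ℝ) * Real.sin (Real.pi * j * t / L) ^ 2 /
        (2 - 2 * Real.cos (Real.pi * j / L) + (2 * Real.cosh ω - 2)) =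
        ∑ s ∈ Finset.range L, GD L ω t s * (2 / (L : ℝ) * (Real.sin (Real.pi * j * t / L) *
          Real.sin (Real.pi * j * s / L))) := by
      intro j _
      have h2 := AD hL h0 j ht.le
      have h3 : 2 / (L : ℝ) * Real.sin (Real.pi * j * t / L) ^ 2 /
        (2 - 2 * Real.cos (Real.pi * j / L) + (2 * Real.cosh ω - 2)) =
        2 / (L : ℝ) * Real.sin (Real.pi * j * t / L) *
          (Real.sin (Real.pi * j * t / L) / lam L ω j) := by unfold lam; ring
      rw [h3, ← h2, Finset.mul_sum]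
      apply Finset.sum_congr rfl
      intro s _
      ring
    rw [Finset.sum_congr rfl h1, Finset.sum_comm]
    have h4 : ∀ s ∈ Finset.range L, ∑ j ∈ Finset.range L, GD L ω t s * (2 / (L : ℝ) *
        (Real.sin (Real.pi * j * t / L) * Real.sin (Real.pi * j * s / L))) =
        if t = s then GD L ω t s else 0 := by
      intro s hs
      rw [← Finset.mul_sum, dst ht (Finset.mem_range.1 hs)]
      split_ifs with a b
      · rw [b, g0, zero_mul]
      · rw [mul_one]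
      · rw [mul_zero]
    rw [Finset.sum_congr rfl h4, Finset.sum_ite_eq, if_pos (Finset.mem_range.2 ht)]
  · intro t ht
    rw [expand (L := L) (fun _ => 2 / (L : ℝ)) (fun j s => Real.sin (Real.pi * j * s / L))
      (fun s => GD L ω t s)]
    · apply Finset.sum_congr rfl
      intro j _
      rw [AD hL h0 j ht.le]
      unfold lam
      rw [div_pow]
      ring
    · intro a ha s hs
      rw [dst ha hs]
      split_ifs with u v
      · subst u; rw [v, g0']; ring
      · ring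
      · ring
  · intro t ht
    have h1 : ∀ j ∈ Finset.range L, (if j = 0 then 1 else 2) / (L : ℝ) *
        Real.cos (Real.pi * j * (t + 1 / 2) / L) ^ 2 /
        (2 - 2 * Real.cos (Real.pi * j / L) + (2 * Real.cosh ω - 2)) =
        ∑ s ∈ Finset.range L, GN L ω t s * ((if j = 0 then 1 else 2) / (L : ℝ) *
          (Real.cos (Real.pi * j * (t + 1 / 2) / L) *
          Real.cos (Real.pi * j * (s + 1 / 2) / L))) := by
      intro j _
      have h2 := AN hL h0 j ht
      have h3 : (if j = 0 then 1 else 2) / (L : ℝ) *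
        Real.cos (Real.pi * j * (t + 1 / 2) / L) ^ 2 /
        (2 - 2 * Real.cos (Real.pi * j / L) + (2 * Real.cosh ω - 2)) =
        (if j = 0 then 1 else 2) / (L : ℝ) * Real.cos (Real.pi * j * (t + 1 / 2) / L) *
          (Real.cos (Real.pi * j * (t + 1 / 2) / L) / lam L ω j) := by unfold lam; ring
      rw [h3, ← h2, Finset.mul_sum]
      apply Finset.sum_congr rfl
      intro s _
      ring
    rw [Finset.sum_congr rfl h1, Finset.sum_comm]
    have h4 : ∀ s ∈ Finset.range L, ∑ j ∈ Finset.range L, GN L ω t s *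
        ((if j = 0 then 1 else 2) / (L : ℝ) *
        (Real.cos (Real.pi * j * (t + 1 / 2) / L) * Real.cos (Real.pi * j * (s + 1 / 2) / L))) =
        if t = s then GN L ω t s else 0 := by
      intro s hs
      rw [← Finset.mul_sum, dct ht (Finset.mem_range.1 hs)]
      split_ifs with a
      · rw [mul_one]
      · rw [mul_zero]
    rw [Finset.sum_congr rfl h4, Finset.sum_ite_eq, if_pos (Finset.mem_range.2 ht)]
  · intro t ht
    rw [expand (L := L) (fun j => (if j = 0 then 1 else 2) / (L : ℝ))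
      (fun j s => Real.cos (Real.pi * j * (s + 1 / 2) / L)) (fun s => GN L ω t s)]
    · apply Finset.sum_congr rfl
      intro j _
      rw [AN hL h0 j ht]
      unfold lam
      rw [div_pow]
      ring
    · intro a ha s hs
      rw [dct ha hs]
      split_ifs with u
      · ring
      · ring

end

end Pool.Agent.Y427.AF
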