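import Mathlib
import Pool.Agent.Y16.AF.StmA

/-! Elementary bounds for the Green functions on an interval. -/

namespace Pool.Agent.Y427.AF

open Pool.Agent.Y16.AF

noncomputable section

/-- The Green function of the line, up to the factor. -/
def EE (ω : ℝ) (t s : ℕ) : ℝ := Real.exp (-(ω * |(t : ℝ) - s|))

/-- Size of the boundary terms. -/
def BB (L : ℕ) (ω : ℝ) (t s : ℕ) : ℝ :=
  Real.exp (-(ω * (t + s))) + Real.exp (-(ω * (2 * L - t - s)))

lemma EE_pos (ω : ℝ) (t s : ℕ) : 0 < EE ω t s := Real.exp_pos _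

lemma EE_le {ω : ℝ} (h : 0 < ω) (t s : ℕ) : EE ω t s ≤ 1 := by
  unfold EE
  rw [Real.exp_le_one_iff]
  have := mul_nonneg h.le (abs_nonneg ((t : ℝ) - s))
  linarith

lemma BB_pos (L : ℕ) (ω : ℝ) (t s : ℕ) : 0 < BB L ω t s :=
  add_pos (Real.exp_pos _) (Real.exp_pos _)

lemma BB_le {L : ℕ} {ω : ℝ} (h : 0 < ω) {t s : ℕ} (ht : t ≤ L) (hs : s ≤ L) : BB L ω t s ≤ 2 := by
  unfold BB
  have h1 : Real.exp (-(ω * (t + s))) ≤ 1 := by
    rw [Real.exp_le_one_iff]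
    have : 0 ≤ ω * ((t : ℝ) + s) := by positivity
    linarith
  have h2 : Real.exp (-(ω * (2 * L - t - s))) ≤ 1 := by
    rw [Real.exp_le_one_iff]
    have ht' : (t : ℝ) ≤ L := by exact_mod_cast ht
    have hs' : (s : ℝ) ≤ L := by exact_mod_cast hs
    have : 0 ≤ ω * (2 * (L : ℝ) - t - s) := mul_nonneg h.le (by linarith)
    linarith
  linarith

lemma sinh_ge {y : ℝ} (hy : 1 ≤ y) : Real.exp y / 3 ≤ Real.sinh y := by
  rw [Real.sinh_eq]
  have h1 : (3 : ℝ) ≤ Real.exp (2 * y) := by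
    have := Real.add_one_le_exp (2 * y)
    linarith
  have h2 : Real.exp (2 * y) * Real.exp (-y) = Real.exp y := by
    rw [← Real.exp_add]; congr 1; ring
  have h3 := Real.exp_pos (-y)
  nlinarith

lemma exp3 : Real.exp 3 ≤ 21 := by
  have h := Real.exp_one_lt_d9
  have h2 : Real.exp 3 = Real.exp 1 ^ 3 := by
    rw [← Real.exp_nat_mul]; norm_num
  rw [h2]
  have h0 := Real.exp_pos 1
  calc Real.exp 1 ^ 3 ≤ (2.7182818286 : ℝ) ^ 3 := by gcongr
    _ ≤ 21 := by norm_num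

lemma expω {ω : ℝ} (h3 : ω ≤ 3) : Real.exp ω ≤ 21 :=
  (Real.exp_le_exp.2 h3).trans exp3

lemma exp_sub_one {ω : ℝ} (h0 : 0 < ω) (h3 : ω ≤ 3) : Real.exp ω - 1 ≤ 21 * ω := by
  have h1 := Real.add_one_le_exp (-ω)
  have h2 : Real.exp ω * Real.exp (-ω) = 1 := by rw [← Real.exp_add]; simp
  have h4 := expω h3
  have h5 := Real.exp_pos ω
  nlinarith

/-- The first term of the product formulas. -/
lemma cosh_term {y a : ℝ} (hy : 1 ≤ y) (ha : 0 ≤ a) :
    |Real.cosh (y - a) / Real.sinh y - Real.exp (-a)| ≤ 3 * Real.exp (-(2 * y - a)) := by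
  have hs := sinh_ge hy
  have hsp : 0 < Real.sinh y := lt_of_lt_of_le (by positivity) hs
  have h1 : Real.cosh (y - a) / Real.sinh y - Real.exp (-a) =
      Real.exp (-y) * Real.cosh a / Real.sinh y := by
    rw [eq_div_iff hsp.ne', sub_mul, div_mul_cancel₀ _ hsp.ne', Real.cosh_eq, Real.sinh_eq,
      Real.cosh_eq]
    have e1 : Real.exp (y - a) = Real.exp y * Real.exp (-a) := by rw [← Real.exp_add]; ring_nf
    have e2 : Real.exp (-(y - a)) = Real.exp (-y) * Real.exp a := by rw [← Real.exp_add]; ring_nf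
    rw [e1, e2]
    ring
  rw [h1, abs_of_nonneg (by positivity), div_le_iff₀ hsp]
  have h2 : Real.cosh a ≤ Real.exp a := by
    rw [Real.cosh_eq]
    have : Real.exp (-a) ≤ Real.exp a := Real.exp_le_exp.2 (by linarith)
    linarith
  have h3 : Real.exp (-(2 * y - a)) * Real.exp y = Real.exp (-y) * Real.exp a := by
    rw [← Real.exp_add, ← Real.exp_add]; ring_nf
  have h4 := Real.exp_pos (-(2 * y - a))
  calc Real.exp (-y) * Real.cosh a ≤ Real.exp (-y) * Real.exp a := by gcongr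
    _ = 3 * Real.exp (-(2 * y - a)) * (Real.exp y / 3) := by rw [← h3]; ring
    _ ≤ 3 * Real.exp (-(2 * y - a)) * Real.sinh y := by gcongr

/-- The second term of the product formulas. -/
lemma cosh_term2 {y b : ℝ} (hy : 1 ≤ y) :
    |Real.cosh (b - y) / Real.sinh y| ≤ 3 / 2 * (Real.exp (-b) + Real.exp (-(2 * y - b))) := by
  have hs := sinh_ge hy
  have hsp : 0 < Real.sinh y := lt_of_lt_of_le (by positivity) hs
  rw [abs_of_nonneg (by positivity), div_le_iff₀ hsp]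
  have h4 : Real.cosh (b - y) = 3 / 2 * (Real.exp (-b) + Real.exp (-(2 * y - b))) *
      (Real.exp y / 3) := by
    rw [Real.cosh_eq]
    have e1 : Real.exp (b - y) = Real.exp (-(2 * y - b)) * Real.exp y := by
      rw [← Real.exp_add]; ring_nf
    have e2 : Real.exp (-(b - y)) = Real.exp (-b) * Real.exp y := by rw [← Real.exp_add]; ring_nf
    rw [e1, e2]; ring
  rw [h4]
  gcongr

lemma GD_eq {L : ℕ} {ω : ℝ} (h0 : 0 < ω) (t s : ℕ) :
    2 * Real.sinh ω * GD L ω t s =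
      Real.cosh (ω * L - ω * |(t : ℝ) - s|) / Real.sinh (ω * L) -
        Real.cosh (ω * (t + s) - ω * L) / Real.sinh (ω * L) := by
  have hs : Real.sinh ω ≠ 0 := (Real.sinh_pos_iff.2 h0).ne'
  unfold GD
  rw [← sub_div]
  have key : ∀ a b : ℝ, Real.cosh (a + b) - Real.cosh (a - b) = 2 * (Real.sinh a * Real.sinh b) := by
    intro a b
    rw [Real.cosh_add, Real.cosh_sub]; ring
  rcases le_total t s with h | h
  · rw [min_eq_left h, max_eq_right h]
    have h' : (t : ℝ) ≤ s := by exact_mod_cast h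
    rw [abs_of_nonpos (by linarith)]
    have := key (ω * t) (ω * (L - s))
    rw [show ω * (t : ℝ) + ω * (L - s) = ω * L - ω * (-((t : ℝ) - s)) by ring,
      show ω * (t : ℝ) - ω * (L - s) = ω * (t + s) - ω * L by ring] at this
    rw [this]
    field_simp
  · rw [min_eq_right h, max_eq_left h]
    have h' : (s : ℝ) ≤ t := by exact_mod_cast h
    rw [abs_of_nonneg (by linarith)]
    have := key (ω * s) (ω * (L - t))
    rw [show ω * (s : ℝ) + ω * (L - t) = ω * L - ω * ((t : ℝ) - s) by ring,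
      show ω * (s : ℝ) - ω * (L - t) = ω * (t + s) - ω * L by ring] at this
    rw [this]
    field_simp

lemma GN_eq {L : ℕ} {ω : ℝ} (h0 : 0 < ω) (t s : ℕ) :
    2 * Real.sinh ω * GN L ω t s =
      Real.cosh (ω * L - ω * |(t : ℝ) - s|) / Real.sinh (ω * L) +
        Real.cosh (ω * (t + s + 1) - ω * L) / Real.sinh (ω * L) := by
  have hs : Real.sinh ω ≠ 0 := (Real.sinh_pos_iff.2 h0).ne'
  unfold GN
  rw [← add_div]
  have key : ∀ a b : ℝ, Real.cosh (a + b) + Real.cosh (a - b) = 2 * (Real.cosh a * Real.cosh b) := by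
    intro a b
    rw [Real.cosh_add, Real.cosh_sub]; ring
  rcases le_total t s with h | h
  · rw [min_eq_left h, max_eq_right h]
    have h' : (t : ℝ) ≤ s := by exact_mod_cast h
    rw [abs_of_nonpos (by linarith)]
    have := key (ω * (t + 1 / 2)) (ω * (L - 1 / 2 - s))
    rw [show ω * ((t : ℝ) + 1 / 2) + ω * (L - 1 / 2 - s) = ω * L - ω * (-((t : ℝ) - s)) by ring,
      show ω * ((t : ℝ) + 1 / 2) - ω * (L - 1 / 2 - s) = ω * (t + s + 1) - ω * L by ring] at this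
    rw [this]
    field_simp
  · rw [min_eq_right h, max_eq_left h]
    have h' : (s : ℝ) ≤ t := by exact_mod_cast h
    rw [abs_of_nonneg (by linarith)]
    have := key (ω * (s + 1 / 2)) (ω * (L - 1 / 2 - t))
    rw [show ω * ((s : ℝ) + 1 / 2) + ω * (L - 1 / 2 - t) = ω * L - ω * ((t : ℝ) - s) by ring,
      show ω * ((s : ℝ) + 1 / 2) - ω * (L - 1 / 2 - t) = ω * (t + s + 1) - ω * L by ring] at this
    rw [this]
    field_simp

lemma first_le {L : ℕ} {ω : ℝ} (h0 : 0 < ω) (h1 : 1 ≤ ω * L) {t s : ℕ} (ht : t ≤ L) (hs : s ≤ L) :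
    |Real.cosh (ω * L - ω * |(t : ℝ) - s|) / Real.sinh (ω * L) - EE ω t s| ≤
      3 * Real.exp (-(ω * (t + s))) := by
  have ht' : (t : ℝ) ≤ L := by exact_mod_cast ht
  have hs' : (s : ℝ) ≤ L := by exact_mod_cast hs
  refine (cosh_term h1 (mul_nonneg h0.le (abs_nonneg _))).trans ?_
  gcongr
  have : |(t : ℝ) - s| ≤ 2 * L - (t + s) := by
    rw [abs_le]; constructor <;> linarith
  nlinarith

lemma GD_le {L : ℕ} {ω : ℝ} (h0 : 0 < ω) (h1 : 1 ≤ ω * L) {t s : ℕ} (ht : t ≤ L) (hs : s ≤ L) :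
    |2 * Real.sinh ω * GD L ω t s - EE ω t s| ≤ 35 * BB L ω t s := by
  rw [GD_eq h0]
  have h2 := first_le h0 h1 ht hs
  have h3 := cosh_term2 (b := ω * (t + s)) h1
  have e : Real.exp (-(2 * (ω * L) - ω * (t + s))) = Real.exp (-(ω * (2 * L - t - s))) := by
    congr 1; ring
  rw [e] at h3
  have p1 := Real.exp_pos (-(ω * (t + s)))
  have p2 := Real.exp_pos (-(ω * (2 * L - t - s)))
  unfold BB
  rw [abs_le] at h2 h3 ⊢
  constructor <;> linarith [h2.1, h2.2, h3.1, h3.2]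

lemma GN_le {L : ℕ} {ω : ℝ} (h0 : 0 < ω) (hω : ω ≤ 3) (h1 : 1 ≤ ω * L) {t s : ℕ} (ht : t ≤ L)
    (hs : s ≤ L) : |2 * Real.sinh ω * GN L ω t s - EE ω t s| ≤ 35 * BB L ω t s := by
  rw [GN_eq h0]
  have h2 := first_le h0 h1 ht hs
  have h3 := cosh_term2 (b := ω * (t + s + 1)) h1
  have e : Real.exp (-(2 * (ω * L) - ω * (t + s + 1))) =
      Real.exp ω * Real.exp (-(ω * (2 * L - t - s))) := by
    rw [← Real.exp_add]; congr 1; ring
  have e' : Real.exp (-(ω * (t + s + 1))) ≤ Real.exp (-(ω * (t + s))) :=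
    Real.exp_le_exp.2 (by nlinarith)
  rw [e] at h3
  have p1 := Real.exp_pos (-(ω * (t + s)))
  have p2 := Real.exp_pos (-(ω * (2 * L - t - s)))
  have p3 : Real.exp ω * Real.exp (-(ω * (2 * L - t - s))) ≤
      21 * Real.exp (-(ω * (2 * L - t - s))) := by
    gcongr; exact expω hω
  unfold BB
  rw [abs_le] at h2 h3 ⊢
  constructor <;> linarith [h2.1, h2.2, h3.1, h3.2]

/-! ### Sums -/

/-- Decay from the left end. -/
def bl (ω : ℝ) (t : ℕ) : ℝ := Real.exp (-(ω / 2 * t))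

/-- Decay from the right end. -/
def br (L : ℕ) (ω : ℝ) (t : ℕ) : ℝ := Real.exp (-(ω / 2 * (L - t)))

lemma bl_pos (ω : ℝ) (t : ℕ) : 0 < bl ω t := Real.exp_pos _
lemma br_pos (L : ℕ) (ω : ℝ) (t : ℕ) : 0 < br L ω t := Real.exp_pos _

/-- `1 - exp (-u) ≥ u / (1 + u)` -/
lemma one_sub_exp {u : ℝ} (hu : 0 ≤ u) : u / (1 + u) ≤ 1 - Real.exp (-u) := by
  have h1 := Real.add_one_le_exp u
  have h2 : Real.exp (-u) ≤ 1 / (1 + u) := by
    rw [Real.exp_neg, inv_eq_one_div]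
    exact one_div_le_one_div_of_le (by linarith) (by linarith)
  have h3 : u / (1 + u) = 1 - 1 / (1 + u) := by field_simp; ring
  rw [h3]
  linarith

lemma sum_geo_le {x c : ℝ} (hx0 : 0 ≤ x) (hc : 0 < c) (hx : c ≤ 1 - x) (n : ℕ) :
    ∑ t ∈ Finset.range n, x ^ t ≤ 1 / c := by
  have hx1 : x < 1 := by linarith
  have h1 : ∑ t ∈ Finset.range n, x ^ t ≤ (1 - x)⁻¹ := geom_sum_lt_le hx0 hx1 n
  refine h1.trans ?_
  rw [inv_eq_one_div]
  exact one_div_le_one_div_of_le hc hx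
where
  geom_sum_lt_le {x : ℝ} (hx0 : 0 ≤ x) (hx1 : x < 1) (n : ℕ) :
      ∑ t ∈ Finset.range n, x ^ t ≤ (1 - x)⁻¹ := by
    rw [← tsum_geometric_of_lt_one hx0 hx1]
    exact (summable_geometric_of_lt_one hx0 hx1).sum_le_tsum _ (fun i _ => by positivity)

lemma sum_bl {ω : ℝ} (h0 : 0 < ω) (h3 : ω ≤ 3) (n : ℕ) :
    ∑ t ∈ Finset.range n, bl ω t ≤ 5 / ω := by
  have e : ∀ t : ℕ, bl ω t = Real.exp (-(ω / 2)) ^ t := by
    intro t
    rw [← Real.exp_nat_mul]; unfold bl; congr 1; ring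
  simp_rw [e]
  have h := sum_geo_le (x := Real.exp (-(ω / 2))) (c := ω / 5) (Real.exp_pos _).le (by positivity)
    (by
      refine le_trans ?_ (one_sub_exp (u := ω / 2) (by positivity))
      rw [div_le_div_iff₀ (by norm_num) (by positivity)]
      nlinarith) n
  refine h.trans (le_of_eq ?_)
  field_simp

lemma sum_br {L : ℕ} {ω : ℝ} (h0 : 0 < ω) (h3 : ω ≤ 3) :
    ∑ t ∈ Finset.range L, br L ω t ≤ 5 / ω := by
  rw [← Finset.sum_range_reflect]
  refine le_trans (Finset.sum_le_sum fun t ht => ?_) (sum_bl h0 h3 L)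
  have ht' := Finset.mem_range.1 ht
  unfold br bl
  apply Real.exp_le_exp.2
  have : ((L - 1 - t : ℕ) : ℝ) = L - 1 - t := by
    rw [Nat.cast_sub (by omega), Nat.cast_sub (by omega)]; simp
  rw [this]
  nlinarith

/-- The majorant of the boundary terms. -/
def MM (L : ℕ) (ω : ℝ) (t s : ℕ) : ℝ := bl ω t * bl ω s + br L ω t * br L ω s

lemma sum_MM {L : ℕ} {ω : ℝ} (h0 : 0 < ω) (h3 : ω ≤ 3) :
    ∑ t ∈ Finset.range L, ∑ s ∈ Finset.range L, MM L ω t s ≤ 50 / ω ^ 2 := by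
  unfold MM
  simp_rw [Finset.sum_add_distrib, ← Finset.mul_sum, ← Finset.sum_mul]
  have h1 := sum_bl h0 h3 L
  have h2 := sum_br (L := L) h0 h3
  have p1 : 0 ≤ ∑ t ∈ Finset.range L, bl ω t := Finset.sum_nonneg fun t _ => (bl_pos ω t).le
  have p2 : 0 ≤ ∑ t ∈ Finset.range L, br L ω t := Finset.sum_nonneg fun t _ => (br_pos L ω t).le
  calc _ ≤ 5 / ω * (5 / ω) + 5 / ω * (5 / ω) := by gcongr
    _ = 50 / ω ^ 2 := by field_simp; norm_num

lemma MM_pos (L : ℕ) (ω : ℝ) (t s : ℕ) : 0 < MM L ω t s := by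
  unfold MM
  have h1 := bl_pos ω t
  have h2 := bl_pos ω s
  have h3 := br_pos L ω t
  have h4 := br_pos L ω s
  positivity

lemma BB_le_MM {L : ℕ} {ω : ℝ} (h0 : 0 < ω) {t s : ℕ} (ht : t ≤ L) (hs : s ≤ L) :
    BB L ω t s ≤ MM L ω t s := by
  have ht' : (t : ℝ) ≤ L := by exact_mod_cast ht
  have hs' : (s : ℝ) ≤ L := by exact_mod_cast hs
  unfold BB MM bl br
  rw [← Real.exp_add, ← Real.exp_add]
  have ht0 : (0 : ℝ) ≤ t := by positivity
  have hs0 : (0 : ℝ) ≤ s := by positivity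
  apply add_le_add
  · apply Real.exp_le_exp.2
    nlinarith
  · apply Real.exp_le_exp.2
    nlinarith

lemma sq_exp {ω u : ℝ} (h0 : 0 < ω) (hu : 0 ≤ u) :
    u ^ 2 * Real.exp (-(ω * u)) ≤ 8 / ω ^ 2 * Real.exp (-(ω / 2 * u)) := by
  have h1 := Real.quadratic_le_exp_of_nonneg (x := ω / 2 * u) (by positivity)
  have h2 : (ω * u) ^ 2 ≤ 8 * Real.exp (ω / 2 * u) := by nlinarith [mul_nonneg h0.le hu]
  have h3 : Real.exp (-(ω / 2 * u)) = Real.exp (ω / 2 * u) * Real.exp (-(ω * u)) := by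
    rw [← Real.exp_add]; ring_nf
  rw [h3]
  have h4 := Real.exp_pos (-(ω * u))
  rw [div_mul_eq_mul_div, le_div_iff₀ (by positivity)]
  calc u ^ 2 * Real.exp (-(ω * u)) * ω ^ 2 = (ω * u) ^ 2 * Real.exp (-(ω * u)) := by ring
    _ ≤ 8 * Real.exp (ω / 2 * u) * Real.exp (-(ω * u)) := by gcongr
    _ = _ := by ring

lemma sq_BB_le {L : ℕ} {ω : ℝ} (h0 : 0 < ω) {t s : ℕ} (ht : t ≤ L) (hs : s ≤ L) :
    ((t : ℝ) - s) ^ 2 * BB L ω t s ≤ 8 / ω ^ 2 * MM L ω t s := by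
  have ht' : (t : ℝ) ≤ L := by exact_mod_cast ht
  have hs' : (s : ℝ) ≤ L := by exact_mod_cast hs
  have ht0 : (0 : ℝ) ≤ t := by positivity
  have hs0 : (0 : ℝ) ≤ s := by positivity
  have h1 := sq_exp h0 (u := (t : ℝ) + s) (by positivity)
  have h2 := sq_exp h0 (u := 2 * (L : ℝ) - t - s) (by linarith)
  have e1 : Real.exp (-(ω / 2 * ((t : ℝ) + s))) = bl ω t * bl ω s := by
    unfold bl; rw [← Real.exp_add]; ring_nf
  have e2 : Real.exp (-(ω / 2 * (2 * (L : ℝ) - t - s))) = br L ω t * br L ω s := by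
    unfold br; rw [← Real.exp_add]; ring_nf
  rw [e1] at h1
  rw [e2] at h2
  have h3 : ((t : ℝ) - s) ^ 2 ≤ ((t : ℝ) + s) ^ 2 := by nlinarith
  have h4 : ((t : ℝ) - s) ^ 2 ≤ (2 * (L : ℝ) - t - s) ^ 2 := by nlinarith
  have a1 := (mul_le_mul_of_nonneg_right h3 (Real.exp_pos (-(ω * ((t : ℝ) + s)))).le).trans h1
  have a2 := (mul_le_mul_of_nonneg_right h4
    (Real.exp_pos (-(ω * (2 * (L : ℝ) - t - s)))).le).trans h2
  unfold BB MM
  calc ((t : ℝ) - s) ^ 2 * (Real.exp (-(ω * ((t : ℝ) + s))) +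
        Real.exp (-(ω * (2 * (L : ℝ) - t - s)))) =
      ((t : ℝ) - s) ^ 2 * Real.exp (-(ω * ((t : ℝ) + s))) +
        ((t : ℝ) - s) ^ 2 * Real.exp (-(ω * (2 * (L : ℝ) - t - s))) := by ring
    _ ≤ 8 / ω ^ 2 * (bl ω t * bl ω s) + 8 / ω ^ 2 * (br L ω t * br L ω s) := add_le_add a1 a2
    _ = _ := by ring

/-! ### Sums over the distance -/

lemma sum_dist {L t : ℕ} (ht : t < L) (f : ℕ → ℝ) (F : ℝ → ℝ)
    (hF : ∀ n : ℕ, F n = f n) :
    ∑ s ∈ Finset.range L, F |(t : ℝ) - s| =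
      (∑ r ∈ Finset.range (t + 1), f r) + (∑ r ∈ Finset.range (L - t), f r) - f 0 := by
  obtain ⟨m, rfl⟩ : ∃ m, L = (t + 1) + m := ⟨L - (t + 1), by omega⟩
  rw [Finset.sum_range_add]
  have h1 : ∑ s ∈ Finset.range (t + 1), F |(t : ℝ) - s| = ∑ r ∈ Finset.range (t + 1), f r := by
    rw [← Finset.sum_range_reflect (fun r => f r)]
    apply Finset.sum_congr rfl
    intro s hs
    have hs' := Finset.mem_range.1 hs
    rw [← hF]
    congr 1
    have : ((t + 1 - 1 - s : ℕ) : ℝ) = t - s := by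
      rw [Nat.add_sub_cancel, Nat.cast_sub (by omega)]
    rw [this, abs_of_nonneg]
    have : (s : ℝ) ≤ t := by exact_mod_cast (by omega : s ≤ t)
    linarith
  have h2 : ∑ x ∈ Finset.range m, F |(t : ℝ) - ((t + 1 + x : ℕ) : ℝ)| =
      ∑ x ∈ Finset.range m, f (x + 1) := by
    apply Finset.sum_congr rfl
    intro x _
    rw [← hF]
    congr 1
    push_cast
    rw [abs_of_nonpos (by linarith [(Nat.cast_nonneg x : (0 : ℝ) ≤ x)])]
    ring
  have h3 : t + 1 + m - t = m + 1 := by omega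
  rw [h1, h2, h3, Finset.sum_range_succ' (fun r => f r) m]
  ring

/-- The ratio `sinh ω / ω`. -/
lemma sig_bounds {ω : ℝ} (h0 : 0 < ω) (h3 : ω ≤ 3) :
    1 ≤ Real.sinh ω / ω ∧ Real.sinh ω / ω ≤ 1 + 11 * ω := by
  constructor
  · rw [le_div_iff₀ h0, one_mul]
    exact Real.self_le_sinh_iff.2 h0.le
  · rw [div_le_iff₀ h0, Real.sinh_eq]
    have h1 := Real.add_one_le_exp (-ω)
    have h2 : Real.exp ω * Real.exp (-ω) = 1 := by rw [← Real.exp_add]; simp
    have h4 := expω h3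
    have h5 := Real.exp_pos ω
    have h6 : Real.exp ω ≤ 1 + ω * Real.exp ω := by nlinarith
    have h7 : Real.exp ω - 1 ≤ 21 * ω := exp_sub_one h0 h3
    nlinarith

lemma cosh_sig {ω : ℝ} (h0 : 0 < ω) (h3 : ω ≤ 3) (n : ℕ) :
    |Real.cosh ω / (Real.sinh ω / ω) ^ n - 1| ≤ (21 + 11 * n) * ω := by
  obtain ⟨h1, h2⟩ := sig_bounds h0 h3
  set σ := Real.sinh ω / ω with hσ
  have hσ0 : 0 < σ := by linarith
  have hp : 1 ≤ σ ^ n := one_le_pow₀ h1
  have hc1 := Real.one_le_cosh ω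
  have hc2 : Real.cosh ω ≤ 1 + 21 * ω := by
    have := exp_sub_one h0 h3
    have h5 : Real.exp (-ω) ≤ Real.exp ω := Real.exp_le_exp.2 (by linarith)
    rw [Real.cosh_eq]; linarith
  rw [abs_le]
  constructor
  · have h6 : 1 - n * (11 * ω) ≤ Real.cosh ω / σ ^ n := by
      rw [le_div_iff₀ (by positivity)]
      -- (1 - n (σ - 1)) σ ^ n ≤ 1
      have h7 : 1 - n * (11 * ω) ≤ (σ⁻¹) ^ n := by
        have hb := one_add_mul_le_pow (a := σ⁻¹ - 1) (by
          have : 0 < σ⁻¹ := by positivity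
          linarith) n
        have h8 : -(11 * ω) ≤ σ⁻¹ - 1 := by
          have : 1 - (σ - 1) ≤ σ⁻¹ := by
            rw [← sub_nonneg]
            have : σ⁻¹ - (1 - (σ - 1)) = (σ - 1) ^ 2 / σ := by field_simp; ring
            rw [this]; positivity
          linarith
        have h9 : (n : ℝ) * (-(11 * ω)) ≤ n * (σ⁻¹ - 1) := by gcongr
        have h10 : 1 + (σ⁻¹ - 1) = σ⁻¹ := by ring
        rw [h10] at hb
        linarith
      calc (1 - n * (11 * ω)) * σ ^ n ≤ (σ⁻¹) ^ n * σ ^ n := by gcongr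
        _ = 1 := by rw [← mul_pow, inv_mul_cancel₀ hσ0.ne', one_pow]
        _ ≤ Real.cosh ω := hc1
    linarith
  · have h6 : Real.cosh ω / σ ^ n ≤ Real.cosh ω := div_le_self (by positivity) hp
    have : 0 ≤ (n : ℝ) * ω := by positivity
    linarith

end

end Pool.Agent.Y427.AF
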