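import Mathlib
import Pool.Agent.Y427.AF.Base

/-! Sums of squares of the Green functions. -/

namespace Pool.Agent.Y427.AF

open Pool.Agent.Y16.AF

noncomputable section

lemma sum_sq_geo (x : ℝ) (hx : x ≠ 1) (n : ℕ) :
    ∑ r ∈ Finset.range n, (r : ℝ) ^ 2 * x ^ r = x * (1 + x) / (1 - x) ^ 3 -
      x ^ n * (n ^ 2 / (1 - x) + 2 * n * x / (1 - x) ^ 2 + x * (1 + x) / (1 - x) ^ 3) := by
  have h : 1 - x ≠ 0 := sub_ne_zero.2 hx.symm
  induction n with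
  | zero => simp
  | succ n ih =>
    rw [Finset.sum_range_succ, ih, pow_succ]
    push_cast
    field_simp
    ring

lemma x_facts {ω : ℝ} (h0 : 0 < ω) (h3 : ω ≤ 3) :
    ω / 4 ≤ 1 - Real.exp (-(2 * ω)) ∧
    1 - Real.exp (-(2 * ω)) = 2 * Real.exp (-ω) * Real.sinh ω ∧
    1 + Real.exp (-(2 * ω)) = 2 * Real.exp (-ω) * Real.cosh ω := by
  have e2 : Real.exp (-(2 * ω)) = Real.exp (-ω) * Real.exp (-ω) := by
    rw [← Real.exp_add]; ring_nf
  have e1 : Real.exp (-ω) * Real.exp ω = 1 := by rw [← Real.exp_add]; simp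
  refine ⟨?_, ?_, ?_⟩
  · refine le_trans ?_ (one_sub_exp (u := 2 * ω) (by positivity))
    rw [div_le_div_iff₀ (by norm_num) (by positivity)]
    nlinarith
  · rw [e2, Real.sinh_eq]; linear_combination -e1
  · rw [e2, Real.cosh_eq]; linear_combination -e1

lemma S_val {ω : ℝ} (h0 : 0 < ω) (h3 : ω ≤ 3) :
    Real.exp (-(2 * ω)) * (1 + Real.exp (-(2 * ω))) / (1 - Real.exp (-(2 * ω))) ^ 3 =
      Real.cosh ω / (4 * Real.sinh ω ^ 3) := by
  obtain ⟨-, h1, h2⟩ := x_facts h0 h3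
  have hs : Real.sinh ω ≠ 0 := (Real.sinh_pos_iff.2 h0).ne'
  have e2 : Real.exp (-(2 * ω)) = Real.exp (-ω) * Real.exp (-ω) := by
    rw [← Real.exp_add]; ring_nf
  have hq := (Real.exp_pos (-ω)).ne'
  rw [h1, h2, e2]
  field_simp
  norm_num

lemma P_bound {ω : ℝ} (h0 : 0 < ω) (h3 : ω ≤ 3) (n : ℕ) :
    |∑ r ∈ Finset.range n, (r : ℝ) ^ 2 * Real.exp (-(2 * ω)) ^ r -
      Real.cosh ω / (4 * Real.sinh ω ^ 3)| ≤ 192 / ω ^ 3 * bl ω n := by
  obtain ⟨hx, -, -⟩ := x_facts h0 h3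
  rw [← S_val h0 h3, sum_sq_geo _ (by intro h; rw [h] at hx; linarith)]
  set x := Real.exp (-(2 * ω)) with hxd
  have hx0 : 0 < x := Real.exp_pos _
  have hy : 0 < 1 - x := by linarith [div_pos h0 (by norm_num : (0 : ℝ) < 4)]
  have hx1 : x ≤ 1 := by linarith
  have hb := bl_pos ω n
  have hn0 : (0 : ℝ) ≤ n := by positivity
  have hi : 1 / (1 - x) ≤ 4 / ω := by
    rw [div_le_div_iff₀ hy h0]; linarith
  have hi0 : 0 < 1 / (1 - x) := by positivity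
  have xn : x ^ n = Real.exp (-(ω * n)) * Real.exp (-(ω * n)) := by
    rw [hxd, ← Real.exp_nat_mul, ← Real.exp_add]; ring_nf
  have en1 : Real.exp (-(ω * n)) ≤ 1 := by
    rw [Real.exp_le_one_iff]; nlinarith
  have en2 : Real.exp (-(ω * n)) ≤ bl ω n := Real.exp_le_exp.2 (by nlinarith)
  have en0 := Real.exp_pos (-(ω * n))
  have t1 : (n : ℝ) ^ 2 * x ^ n ≤ 8 / ω ^ 2 * bl ω n := by
    have := sq_exp h0 hn0
    rw [xn]
    calc (n : ℝ) ^ 2 * (Real.exp (-(ω * n)) * Real.exp (-(ω * n))) =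
        (n : ℝ) ^ 2 * Real.exp (-(ω * n)) * Real.exp (-(ω * n)) := by ring
      _ ≤ (n : ℝ) ^ 2 * Real.exp (-(ω * n)) * 1 := by gcongr
      _ ≤ 8 / ω ^ 2 * bl ω n := by rw [mul_one]; exact this
  have t2 : (n : ℝ) * x ^ n ≤ 1 / ω * bl ω n := by
    rw [xn]
    have h5 : ω * n ≤ Real.exp (ω * n) := by linarith [Real.add_one_le_exp (ω * n)]
    have h6 : Real.exp (ω * n) * Real.exp (-(ω * n)) = 1 := by rw [← Real.exp_add]; simp
    have h7 : ω * n * Real.exp (-(ω * n)) ≤ 1 := by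
      calc ω * n * Real.exp (-(ω * n)) ≤ Real.exp (ω * n) * Real.exp (-(ω * n)) := by gcongr
        _ = 1 := h6
    rw [one_div_mul_eq_div, le_div_iff₀ h0]
    calc (n : ℝ) * (Real.exp (-(ω * n)) * Real.exp (-(ω * n))) * ω =
        (ω * n * Real.exp (-(ω * n))) * Real.exp (-(ω * n)) := by ring
      _ ≤ 1 * bl ω n := by gcongr
      _ = bl ω n := one_mul _
  have t3 : x ^ n ≤ bl ω n := by
    rw [xn]
    calc Real.exp (-(ω * n)) * Real.exp (-(ω * n)) ≤ 1 * bl ω n := by gcongr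
      _ = bl ω n := one_mul _
  have t0 : 0 < x ^ n := by positivity
  have hrw : x * (1 + x) / (1 - x) ^ 3 -
      x ^ n * (n ^ 2 / (1 - x) + 2 * n * x / (1 - x) ^ 2 + x * (1 + x) / (1 - x) ^ 3) -
      x * (1 + x) / (1 - x) ^ 3 = -((n : ℝ) ^ 2 * x ^ n * (1 / (1 - x)) +
        2 * (n * x ^ n) * x * (1 / (1 - x)) ^ 2 + x ^ n * (x * (1 + x)) * (1 / (1 - x)) ^ 3) := by
    field_simp
    ring
  rw [hrw, abs_neg, abs_of_nonneg (by positivity)]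
  have hb' : 0 ≤ bl ω n := hb.le
  calc (n : ℝ) ^ 2 * x ^ n * (1 / (1 - x)) + 2 * (n * x ^ n) * x * (1 / (1 - x)) ^ 2 +
        x ^ n * (x * (1 + x)) * (1 / (1 - x)) ^ 3
      ≤ 8 / ω ^ 2 * bl ω n * (4 / ω) + 2 * (1 / ω * bl ω n) * 1 * (4 / ω) ^ 2 +
        bl ω n * (1 * (1 + 1)) * (4 / ω) ^ 3 := by gcongr
    _ = 192 / ω ^ 3 * bl ω n := by field_simp; ring

lemma bl_succ {ω : ℝ} (h0 : 0 < ω) (t : ℕ) : bl ω (t + 1) ≤ bl ω t := by
  unfold bl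
  apply Real.exp_le_exp.2
  push_cast
  nlinarith

lemma bl_sub {L t : ℕ} (ω : ℝ) (ht : t ≤ L) : bl ω (L - t) = br L ω t := by
  unfold bl br
  rw [Nat.cast_sub ht]

lemma EE_sq (ω : ℝ) (t s : ℕ) : EE ω t s ^ 2 = Real.exp (-(2 * ω) * |(t : ℝ) - s|) := by
  unfold EE
  rw [← Real.exp_nat_mul]; congr 1; push_cast; ring

lemma row_sq {L : ℕ} {ω : ℝ} (h0 : 0 < ω) (h3 : ω ≤ 3) {t : ℕ} (ht : t < L) :
    |∑ s ∈ Finset.range L, ((t : ℝ) - s) ^ 2 * EE ω t s ^ 2 -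
      2 * (Real.cosh ω / (4 * Real.sinh ω ^ 3))| ≤ 192 / ω ^ 3 * (bl ω t + br L ω t) := by
  have h1 : ∑ s ∈ Finset.range L, ((t : ℝ) - s) ^ 2 * EE ω t s ^ 2 =
      ∑ s ∈ Finset.range L, (fun y : ℝ => y ^ 2 * Real.exp (-(2 * ω) * y)) |(t : ℝ) - s| := by
    apply Finset.sum_congr rfl
    intro s _
    rw [EE_sq]
    simp only [sq_abs]
  rw [h1, sum_dist ht (fun r => (r : ℝ) ^ 2 * Real.exp (-(2 * ω)) ^ r)
    (fun y : ℝ => y ^ 2 * Real.exp (-(2 * ω) * y)) (by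
    intro n
    rw [← Real.exp_nat_mul]; congr 2; ring)]
  have p1 := P_bound h0 h3 (t + 1)
  have p2 := P_bound h0 h3 (L - t)
  rw [bl_sub ω ht.le] at p2
  have hc : 0 < 192 / ω ^ 3 := by positivity
  have p3 := mul_le_mul_of_nonneg_left (bl_succ h0 t) hc.le
  simp only [Nat.cast_zero, ne_eq, OfNat.ofNat_ne_zero, not_false_eq_true, zero_pow, zero_mul,
    sub_zero]
  rw [abs_le] at p1 p2 ⊢
  rw [mul_add]
  constructor <;> linarith [p1.1, p1.2, p2.1, p2.2]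

lemma main_sq {L : ℕ} {ω : ℝ} (h0 : 0 < ω) (h3 : ω ≤ 3) :
    |∑ t ∈ Finset.range L, ∑ s ∈ Finset.range L, ((t : ℝ) - s) ^ 2 * EE ω t s ^ 2 -
      2 * L * (Real.cosh ω / (4 * Real.sinh ω ^ 3))| ≤ 1920 / ω ^ 4 := by
  have h1 : ∑ t ∈ Finset.range L, ∑ s ∈ Finset.range L, ((t : ℝ) - s) ^ 2 * EE ω t s ^ 2 -
      2 * L * (Real.cosh ω / (4 * Real.sinh ω ^ 3)) =
      ∑ t ∈ Finset.range L, (∑ s ∈ Finset.range L, ((t : ℝ) - s) ^ 2 * EE ω t s ^ 2 -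
        2 * (Real.cosh ω / (4 * Real.sinh ω ^ 3))) := by
    rw [Finset.sum_sub_distrib, Finset.sum_const, Finset.card_range, nsmul_eq_mul]
    ring
  rw [h1]
  refine (Finset.abs_sum_le_sum_abs _ _).trans ?_
  refine (Finset.sum_le_sum fun t ht => row_sq h0 h3 (Finset.mem_range.1 ht)).trans ?_
  rw [← Finset.mul_sum, Finset.sum_add_distrib]
  have a1 := sum_bl h0 h3 L
  have a2 := sum_br (L := L) h0 h3
  calc 192 / ω ^ 3 * (∑ t ∈ Finset.range L, bl ω t + ∑ t ∈ Finset.range L, br L ω t) ≤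
      192 / ω ^ 3 * (5 / ω + 5 / ω) := by gcongr
    _ = 1920 / ω ^ 4 := by field_simp; norm_num

lemma sq_err {g e B : ℝ} (h : |g - e| ≤ 35 * B) (he0 : 0 ≤ e) (he : e ≤ 1) (hB : B ≤ 2) :
    |g ^ 2 - e ^ 2| ≤ 2520 * B := by
  have h1 : |g + e| ≤ 72 := by
    rw [abs_le] at h ⊢
    constructor <;> linarith [h.1, h.2]
  have hB0 : 0 ≤ B := by linarith [abs_nonneg (g - e)]
  have : g ^ 2 - e ^ 2 = (g - e) * (g + e) := by ring
  rw [this, abs_mul]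
  calc |g - e| * |g + e| ≤ 35 * B * 72 := by gcongr
    _ = 2520 * B := by ring

theorem af_spr : S_SPR := by
  refine ⟨1100000, ?_⟩
  intro L hL ω h0 h3 h1
  have hs : 0 < Real.sinh ω := Real.sinh_pos_iff.2 h0
  have hsω : ω ≤ Real.sinh ω := Real.self_le_sinh_iff.2 h0.le
  have hL0 : (0 : ℝ) < L := by
    have : (2 : ℝ) ≤ L := by exact_mod_cast hL
    linarith
  -- the sum times `4 sinh ω ^ 2`
  have err : |∑ t ∈ Finset.range L, ∑ s ∈ Finset.range L,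
      (((t : ℝ) - s) ^ 2 * ((2 * Real.sinh ω * GN L ω t s) ^ 2 +
        (2 * Real.sinh ω * GD L ω t s) ^ 2) - 2 * (((t : ℝ) - s) ^ 2 * EE ω t s ^ 2))| ≤
      2016000 / ω ^ 4 := by
    refine (Finset.abs_sum_le_sum_abs _ _).trans ?_
    refine (Finset.sum_le_sum fun t _ => Finset.abs_sum_le_sum_abs _ _).trans ?_
    have : ∀ t ∈ Finset.range L, ∀ s ∈ Finset.range L,
        |((t : ℝ) - s) ^ 2 * ((2 * Real.sinh ω * GN L ω t s) ^ 2 +
          (2 * Real.sinh ω * GD L ω t s) ^ 2) - 2 * (((t : ℝ) - s) ^ 2 * EE ω t s ^ 2)| ≤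
          40320 / ω ^ 2 * MM L ω t s := by
      intro t ht s hs'
      have ht' := (Finset.mem_range.1 ht).le
      have hs'' := (Finset.mem_range.1 hs').le
      have b2 := BB_le h0 ht' hs''
      have g1 := sq_err (GN_le h0 h3 h1 ht' hs'') (EE_pos ω t s).le (EE_le h0 t s) b2
      have g2 := sq_err (GD_le h0 h1 ht' hs'') (EE_pos ω t s).le (EE_le h0 t s) b2
      have e : ((t : ℝ) - s) ^ 2 * ((2 * Real.sinh ω * GN L ω t s) ^ 2 +
          (2 * Real.sinh ω * GD L ω t s) ^ 2) - 2 * (((t : ℝ) - s) ^ 2 * EE ω t s ^ 2) =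
          ((t : ℝ) - s) ^ 2 * (((2 * Real.sinh ω * GN L ω t s) ^ 2 - EE ω t s ^ 2) +
            ((2 * Real.sinh ω * GD L ω t s) ^ 2 - EE ω t s ^ 2)) := by ring
      rw [e, abs_mul, abs_of_nonneg (sq_nonneg _)]
      have g3 := sq_BB_le h0 ht' hs''
      calc ((t : ℝ) - s) ^ 2 * |((2 * Real.sinh ω * GN L ω t s) ^ 2 - EE ω t s ^ 2) +
            ((2 * Real.sinh ω * GD L ω t s) ^ 2 - EE ω t s ^ 2)| ≤
          ((t : ℝ) - s) ^ 2 * (2520 * BB L ω t s + 2520 * BB L ω t s) := by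
            gcongr
            exact (abs_add_le _ _).trans (add_le_add g1 g2)
        _ = 5040 * (((t : ℝ) - s) ^ 2 * BB L ω t s) := by ring
        _ ≤ 5040 * (8 / ω ^ 2 * MM L ω t s) := by gcongr
        _ = 40320 / ω ^ 2 * MM L ω t s := by ring
    refine (Finset.sum_le_sum fun t ht => Finset.sum_le_sum fun s hs' => this t ht s hs').trans ?_
    simp_rw [← Finset.mul_sum]
    have h5 := sum_MM (L := L) h0 h3
    calc _ ≤ 40320 / ω ^ 2 * (50 / ω ^ 2) := by gcongr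
      _ = 2016000 / ω ^ 4 := by field_simp; norm_num
  have hm := main_sq (L := L) h0 h3
  have key : ∑ t ∈ Finset.range L, ∑ s ∈ Finset.range L,
      (((t : ℝ) - s) ^ 2 * ((2 * Real.sinh ω * GN L ω t s) ^ 2 +
        (2 * Real.sinh ω * GD L ω t s) ^ 2) - 2 * (((t : ℝ) - s) ^ 2 * EE ω t s ^ 2)) =
      4 * Real.sinh ω ^ 2 * (∑ t ∈ Finset.range L, ∑ s ∈ Finset.range L,
        ((t : ℝ) - s) ^ 2 * (GN L ω t s ^ 2 + GD L ω t s ^ 2)) -
      2 * ∑ t ∈ Finset.range L, ∑ s ∈ Finset.range L, ((t : ℝ) - s) ^ 2 * EE ω t s ^ 2 := by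
    simp_rw [Finset.mul_sum, ← Finset.sum_sub_distrib]
    refine Finset.sum_congr rfl fun t _ => Finset.sum_congr rfl fun s _ => ?_
    ring
  rw [key] at err
  set A := ∑ t ∈ Finset.range L, ∑ s ∈ Finset.range L,
        ((t : ℝ) - s) ^ 2 * (GN L ω t s ^ 2 + GD L ω t s ^ 2) with hA
  set M := ∑ t ∈ Finset.range L, ∑ s ∈ Finset.range L, ((t : ℝ) - s) ^ 2 * EE ω t s ^ 2 with hM
  -- first comparison
  have c1 : |4 * Real.sinh ω ^ 2 * A - L * Real.cosh ω / Real.sinh ω ^ 3| ≤ 2019840 / ω ^ 4 := by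
    have e : 2 * (L : ℝ) * (Real.cosh ω / (4 * Real.sinh ω ^ 3)) =
        L * Real.cosh ω / Real.sinh ω ^ 3 / 2 := by field_simp; norm_num
    rw [e] at hm
    have e2 : 2019840 / ω ^ 4 = 2016000 / ω ^ 4 + 2 * (1920 / ω ^ 4) := by ring
    rw [e2]
    rw [abs_le] at hm err ⊢
    constructor <;> linarith [hm.1, hm.2, err.1, err.2]
  have c2 : |A - L * Real.cosh ω / (4 * Real.sinh ω ^ 5)| ≤ 504960 / ω ^ 6 := by
    have e : 4 * Real.sinh ω ^ 2 * A - L * Real.cosh ω / Real.sinh ω ^ 3 =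
        4 * Real.sinh ω ^ 2 * (A - L * Real.cosh ω / (4 * Real.sinh ω ^ 5)) := by
      field_simp
    rw [e, abs_mul, abs_of_nonneg (by positivity)] at c1
    have h6 : 4 * ω ^ 2 * |A - L * Real.cosh ω / (4 * Real.sinh ω ^ 5)| ≤ 2019840 / ω ^ 4 := by
      refine le_trans ?_ c1
      gcongr
    rw [le_div_iff₀ (by positivity)] at h6 ⊢
    nlinarith
  have c3 : |L * Real.cosh ω / (4 * Real.sinh ω ^ 5) - L / (4 * ω ^ 5)| ≤ 19 * (L / ω ^ 4) := by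
    have h7 := cosh_sig h0 h3 5
    have e : L * Real.cosh ω / (4 * Real.sinh ω ^ 5) - L / (4 * ω ^ 5) =
        L / (4 * ω ^ 5) * (Real.cosh ω / (Real.sinh ω / ω) ^ 5 - 1) := by
      field_simp
    rw [e, abs_mul, abs_of_nonneg (by positivity)]
    calc L / (4 * ω ^ 5) * |Real.cosh ω / (Real.sinh ω / ω) ^ 5 - 1| ≤
        L / (4 * ω ^ 5) * ((21 + 11 * (5 : ℕ)) * ω) := by gcongr
      _ = 19 * (L / ω ^ 4) := by push_cast; field_simp; norm_num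
  have h8 : A - L / (4 * ω ^ 5) = (A - L * Real.cosh ω / (4 * Real.sinh ω ^ 5)) +
      (L * Real.cosh ω / (4 * Real.sinh ω ^ 5) - L / (4 * ω ^ 5)) := by ring
  rw [h8]
  refine (abs_add_le _ _).trans ?_
  have p6 : 0 ≤ 1 / ω ^ 6 := by positivity
  have p4 : 0 ≤ (L : ℝ) / ω ^ 4 := by positivity
  have e6 : 504960 / ω ^ 6 = 504960 * (1 / ω ^ 6) := by ring
  rw [e6] at c2
  linarith

end

end Pool.Agent.Y427.AF
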