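import Mathlib
import Pool.Agent.Y427.AF.Base
import Pool.Agent.Y427.AF.Spr

/-! Sums of products of the Green functions. -/

namespace Pool.Agent.Y427.AF

open Pool.Agent.Y16.AF

noncomputable section

lemma row_one {L : ℕ} {ω : ℝ} (h0 : 0 < ω) (h3 : ω ≤ 3) {t : ℕ} (ht : t < L) :
    |∑ s ∈ Finset.range L, EE ω t s ^ 2 - Real.cosh ω / Real.sinh ω| ≤
      4 / ω * (bl ω t + br L ω t) := by
  obtain ⟨hx, hx1, hx2⟩ := x_facts h0 h3
  have hs : Real.sinh ω ≠ 0 := (Real.sinh_pos_iff.2 h0).ne'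
  have hq := (Real.exp_pos (-ω)).ne'
  have h1 : ∑ s ∈ Finset.range L, EE ω t s ^ 2 =
      ∑ s ∈ Finset.range L, (fun y : ℝ => Real.exp (-(2 * ω) * y)) |(t : ℝ) - s| := by
    apply Finset.sum_congr rfl
    intro s _
    rw [EE_sq]
  rw [h1, sum_dist ht (fun r => Real.exp (-(2 * ω)) ^ r)
    (fun y : ℝ => Real.exp (-(2 * ω) * y)) (by
    intro n
    rw [← Real.exp_nat_mul]; congr 1; ring)]
  have hc : Real.cosh ω / Real.sinh ω =
      (1 + Real.exp (-(2 * ω))) / (1 - Real.exp (-(2 * ω))) := by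
    rw [hx1, hx2]
    field_simp
  have hxn : ∀ n : ℕ, Real.exp (-(2 * ω)) ^ n ≤ bl ω n := by
    intro n
    rw [← Real.exp_nat_mul]
    apply Real.exp_le_exp.2
    have : (0 : ℝ) ≤ n := by positivity
    nlinarith
  have hx0 : 0 < Real.exp (-(2 * ω)) := Real.exp_pos _
  rw [hc]
  set x := Real.exp (-(2 * ω)) with hxd
  have hy : 0 < 1 - x := by linarith [div_pos h0 (by norm_num : (0 : ℝ) < 4)]
  have hi : 1 / (1 - x) ≤ 4 / ω := by
    rw [div_le_div_iff₀ hy h0]; linarith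
  have hne : x ≠ 1 := by intro h; rw [h] at hy; linarith
  rw [geom_sum_eq hne, geom_sum_eq hne]
  have e : (x ^ (t + 1) - 1) / (x - 1) + (x ^ (L - t) - 1) / (x - 1) - x ^ 0 -
      (1 + x) / (1 - x) = -((x ^ (t + 1) + x ^ (L - t)) * (1 / (1 - x))) := by
    have : x - 1 ≠ 0 := sub_ne_zero.2 hne
    have h' : 1 - x ≠ 0 := hy.ne'
    have e1 : x - 1 = -(1 - x) := by ring
    rw [e1]
    field_simp
    ring
  rw [e, abs_neg, abs_of_nonneg (by positivity)]
  have p1 := (hxn (t + 1)).trans (bl_succ h0 t)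
  have p2 := hxn (L - t)
  rw [bl_sub ω ht.le] at p2
  calc (x ^ (t + 1) + x ^ (L - t)) * (1 / (1 - x)) ≤ (bl ω t + br L ω t) * (4 / ω) := by
        have := bl_pos ω t
        have := br_pos L ω t
        gcongr
    _ = _ := mul_comm _ _

lemma main_one {L : ℕ} {ω : ℝ} (h0 : 0 < ω) (h3 : ω ≤ 3) :
    |∑ t ∈ Finset.range L, ∑ s ∈ Finset.range L, EE ω t s ^ 2 -
      L * (Real.cosh ω / Real.sinh ω)| ≤ 40 / ω ^ 2 := by
  have h1 : ∑ t ∈ Finset.range L, ∑ s ∈ Finset.range L, EE ω t s ^ 2 -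
      L * (Real.cosh ω / Real.sinh ω) =
      ∑ t ∈ Finset.range L, (∑ s ∈ Finset.range L, EE ω t s ^ 2 -
        (Real.cosh ω / Real.sinh ω)) := by
    rw [Finset.sum_sub_distrib, Finset.sum_const, Finset.card_range, nsmul_eq_mul]
  rw [h1]
  refine (Finset.abs_sum_le_sum_abs _ _).trans ?_
  refine (Finset.sum_le_sum fun t ht => row_one h0 h3 (Finset.mem_range.1 ht)).trans ?_
  rw [← Finset.mul_sum, Finset.sum_add_distrib]
  have a1 := sum_bl h0 h3 L
  have a2 := sum_br (L := L) h0 h3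
  calc 4 / ω * (∑ t ∈ Finset.range L, bl ω t + ∑ t ∈ Finset.range L, br L ω t) ≤
      4 / ω * (5 / ω + 5 / ω) := by gcongr
    _ = 40 / ω ^ 2 := by field_simp; norm_num

/-- Comparison of the product with a neighbour. -/
lemma nb {L : ℕ} {ω : ℝ} (h0 : 0 < ω) (h3 : ω ≤ 3) (h1 : 1 ≤ ω * L) {t s i j : ℕ} (ht : t < L)
    (hs : s < L) (hi : i ≤ 1) (hj : j ≤ 1) :
    |(2 * Real.sinh ω * GN L ω t s) * (2 * Real.sinh ω * GD L ω (t + i) (s + j)) -
      EE ω t s ^ 2| ≤ 20000 * MM L ω t s + 21 * ω * EE ω t s ^ 2 := by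
  have g1 := GN_le h0 h3 h1 ht.le hs.le
  have g2 := GD_le h0 h1 (show t + i ≤ L by omega) (show s + j ≤ L by omega)
  have b1 := BB_le_MM h0 ht.le hs.le
  have b2 := BB_le h0 (show t + i ≤ L by omega) (show s + j ≤ L by omega)
  have e0 := EE_pos ω t s
  have e1 := EE_le h0 t s
  have e0' := EE_pos ω (t + i) (s + j)
  have e1' := EE_le h0 (t + i) (s + j)
  have hi' : (i : ℝ) ≤ 1 := by exact_mod_cast hi
  have hj' : (j : ℝ) ≤ 1 := by exact_mod_cast hj
  have hi0 : (0 : ℝ) ≤ i := by positivity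
  have hj0 : (0 : ℝ) ≤ j := by positivity
  -- boundary term at the neighbour
  have b3 : BB L ω (t + i) (s + j) ≤ 441 * BB L ω t s := by
    unfold BB
    have k1 : Real.exp (-(ω * (((t + i : ℕ) : ℝ) + ((s + j : ℕ) : ℝ)))) ≤
        441 * Real.exp (-(ω * ((t : ℝ) + s))) := by
      have : Real.exp (-(ω * (((t + i : ℕ) : ℝ) + ((s + j : ℕ) : ℝ)))) ≤
          Real.exp (-(ω * ((t : ℝ) + s))) := by
        apply Real.exp_le_exp.2
        push_cast
        nlinarith
      have := Real.exp_pos (-(ω * ((t : ℝ) + s)))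
      linarith
    have k2 : Real.exp (-(ω * (2 * L - ((t + i : ℕ) : ℝ) - ((s + j : ℕ) : ℝ)))) ≤
        441 * Real.exp (-(ω * (2 * (L : ℝ) - t - s))) := by
      have a1 : Real.exp (-(ω * (2 * L - ((t + i : ℕ) : ℝ) - ((s + j : ℕ) : ℝ)))) ≤
          Real.exp ω * Real.exp ω * Real.exp (-(ω * (2 * (L : ℝ) - t - s))) := by
        rw [← Real.exp_add, ← Real.exp_add]
        apply Real.exp_le_exp.2
        push_cast
        nlinarith
      have a2 := expω h3
      have a3 := Real.exp_pos ω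
      have a4 := Real.exp_pos (-(ω * (2 * (L : ℝ) - t - s)))
      calc _ ≤ _ := a1
        _ ≤ 21 * 21 * Real.exp (-(ω * (2 * (L : ℝ) - t - s))) := by gcongr
        _ = _ := by ring
    linarith
  -- the line function at the neighbour
  have d1 : |EE ω (t + i) (s + j) - EE ω t s| ≤ 21 * ω * EE ω t s := by
    have hij : |(((t + i : ℕ) : ℝ) - ((s + j : ℕ) : ℝ)) - ((t : ℝ) - s)| ≤ 1 := by
      push_cast
      rw [abs_le]; constructor <;> linarith
    have k1 : |((t + i : ℕ) : ℝ) - ((s + j : ℕ) : ℝ)| ≤ |(t : ℝ) - s| + 1 := by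
      have := abs_sub_abs_le_abs_sub (((t + i : ℕ) : ℝ) - ((s + j : ℕ) : ℝ)) ((t : ℝ) - s)
      linarith
    have k2 : |(t : ℝ) - s| ≤ |((t + i : ℕ) : ℝ) - ((s + j : ℕ) : ℝ)| + 1 := by
      have := abs_sub_abs_le_abs_sub ((t : ℝ) - s) (((t + i : ℕ) : ℝ) - ((s + j : ℕ) : ℝ))
      rw [abs_sub_comm ((t : ℝ) - s)] at this
      linarith
    have u1 : EE ω (t + i) (s + j) ≤ EE ω t s * Real.exp ω := by
      unfold EE
      rw [← Real.exp_add]
      apply Real.exp_le_exp.2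
      nlinarith
    have u2 : EE ω t s * Real.exp (-ω) ≤ EE ω (t + i) (s + j) := by
      unfold EE
      rw [← Real.exp_add]
      apply Real.exp_le_exp.2
      nlinarith
    have u3 := exp_sub_one h0 h3
    have u4 := Real.add_one_le_exp (-ω)
    rw [abs_le]
    constructor
    · nlinarith
    · nlinarith
  have hB0 := BB_pos L ω t s
  have hG : |2 * Real.sinh ω * GD L ω (t + i) (s + j)| ≤ 71 := by
    rw [abs_le] at g2 ⊢
    constructor <;> linarith [g2.1, g2.2]
  set gn := 2 * Real.sinh ω * GN L ω t s with hgn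
  set gd := 2 * Real.sinh ω * GD L ω (t + i) (s + j) with hgd
  have e : gn * gd - EE ω t s ^ 2 = (gn - EE ω t s) * gd +
      EE ω t s * (gd - EE ω (t + i) (s + j)) +
      EE ω t s * (EE ω (t + i) (s + j) - EE ω t s) := by ring
  clear_value gn gd
  rw [e]
  refine (abs_add_three _ _ _).trans ?_
  rw [abs_mul (gn - EE ω t s) gd, abs_mul (EE ω t s) (gd - _), abs_mul (EE ω t s) (EE _ _ _ - _),
    abs_of_pos e0]
  have q1 : |gn - EE ω t s| * |gd| ≤ 35 * BB L ω t s * 71 := by gcongr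
  have q2 : EE ω t s * |gd - EE ω (t + i) (s + j)| ≤ 1 * (35 * (441 * BB L ω t s)) := by
    gcongr
    exact g2.trans (by gcongr)
  have q3 : EE ω t s * |EE ω (t + i) (s + j) - EE ω t s| ≤ EE ω t s * (21 * ω * EE ω t s) := by
    gcongr
  have q4 : EE ω t s * (21 * ω * EE ω t s) = 21 * ω * EE ω t s ^ 2 := by ring
  linarith

theorem af_spy : S_SPY := by
  refine ⟨10000000, ?_⟩
  intro L hL ω h0 h3 h1
  have hs : 0 < Real.sinh ω := Real.sinh_pos_iff.2 h0
  have hsω : ω ≤ Real.sinh ω := Real.self_le_sinh_iff.2 h0.le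
  have hL0 : (0 : ℝ) < L := by
    have : (2 : ℝ) ≤ L := by exact_mod_cast hL
    linarith
  have hm := main_one (L := L) h0 h3
  have hMM := sum_MM (L := L) h0 h3
  set M := ∑ t ∈ Finset.range L, ∑ s ∈ Finset.range L, EE ω t s ^ 2 with hM
  have hcoth : Real.cosh ω / Real.sinh ω ≤ 21 / ω := by
    rw [div_le_div_iff₀ hs h0]
    have c1 : Real.cosh ω ≤ 21 := by
      rw [Real.cosh_eq]
      have := expω h3
      have h5 : Real.exp (-ω) ≤ Real.exp ω := Real.exp_le_exp.2 (by linarith)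
      linarith
    have := Real.cosh_pos ω
    calc Real.cosh ω * ω ≤ 21 * Real.sinh ω := by gcongr
      _ = _ := rfl
  have hMle : ω * M ≤ 21 * L + 40 / ω := by
    rw [abs_le] at hm
    have k1 : M ≤ L * (21 / ω) + 40 / ω ^ 2 := by
      have : (L : ℝ) * (Real.cosh ω / Real.sinh ω) ≤ L * (21 / ω) := by gcongr
      linarith [hm.2]
    calc ω * M ≤ ω * (L * (21 / ω) + 40 / ω ^ 2) := by gcongr
      _ = 21 * L + 40 / ω := by field_simp
  -- the sum times `4 sinh ω ^ 2`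
  have err : |∑ t ∈ Finset.range L, ∑ s ∈ Finset.range L,
      ((2 * Real.sinh ω * GN L ω t s) * (2 * Real.sinh ω * GD L ω t s) +
        (2 * Real.sinh ω * GN L ω t s) * (2 * Real.sinh ω * GD L ω (t + 1) s) +
        (2 * Real.sinh ω * GN L ω t s) * (2 * Real.sinh ω * GD L ω t (s + 1)) +
        (2 * Real.sinh ω * GN L ω t s) * (2 * Real.sinh ω * GD L ω (t + 1) (s + 1)) -
        4 * EE ω t s ^ 2)| ≤ 80000 * (50 / ω ^ 2) + 84 * (ω * M) := by
    refine (Finset.abs_sum_le_sum_abs _ _).trans ?_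
    refine (Finset.sum_le_sum fun t _ => Finset.abs_sum_le_sum_abs _ _).trans ?_
    have : ∀ t ∈ Finset.range L, ∀ s ∈ Finset.range L,
        |(2 * Real.sinh ω * GN L ω t s) * (2 * Real.sinh ω * GD L ω t s) +
        (2 * Real.sinh ω * GN L ω t s) * (2 * Real.sinh ω * GD L ω (t + 1) s) +
        (2 * Real.sinh ω * GN L ω t s) * (2 * Real.sinh ω * GD L ω t (s + 1)) +
        (2 * Real.sinh ω * GN L ω t s) * (2 * Real.sinh ω * GD L ω (t + 1) (s + 1)) -
        4 * EE ω t s ^ 2| ≤ 80000 * MM L ω t s + 84 * (ω * EE ω t s ^ 2) := by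
      intro t ht s hs'
      have ht' := (Finset.mem_range.1 ht)
      have hs'' := (Finset.mem_range.1 hs')
      have n1 := nb h0 h3 h1 ht' hs'' (i := 0) (j := 0) (by norm_num) (by norm_num)
      have n2 := nb h0 h3 h1 ht' hs'' (i := 1) (j := 0) (by norm_num) (by norm_num)
      have n3 := nb h0 h3 h1 ht' hs'' (i := 0) (j := 1) (by norm_num) (by norm_num)
      have n4 := nb h0 h3 h1 ht' hs'' (i := 1) (j := 1) (by norm_num) (by norm_num)
      simp only [add_zero] at n1 n2 n3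
      rw [abs_le] at n1 n2 n3 n4 ⊢
      constructor
      · linarith [n1.1, n2.1, n3.1, n4.1]
      · linarith [n1.2, n2.2, n3.2, n4.2]
    refine (Finset.sum_le_sum fun t ht => Finset.sum_le_sum fun s hs' => this t ht s hs').trans ?_
    simp_rw [Finset.sum_add_distrib, ← Finset.mul_sum]
    rw [← hM]
    gcongr
  have key : ∑ t ∈ Finset.range L, ∑ s ∈ Finset.range L,
      ((2 * Real.sinh ω * GN L ω t s) * (2 * Real.sinh ω * GD L ω t s) +
        (2 * Real.sinh ω * GN L ω t s) * (2 * Real.sinh ω * GD L ω (t + 1) s) +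
        (2 * Real.sinh ω * GN L ω t s) * (2 * Real.sinh ω * GD L ω t (s + 1)) +
        (2 * Real.sinh ω * GN L ω t s) * (2 * Real.sinh ω * GD L ω (t + 1) (s + 1)) -
        4 * EE ω t s ^ 2) =
      4 * Real.sinh ω ^ 2 * (∑ t ∈ Finset.range L, ∑ s ∈ Finset.range L,
        GN L ω t s * (GD L ω t s + GD L ω (t + 1) s + GD L ω t (s + 1) +
          GD L ω (t + 1) (s + 1))) - 4 * M := by
    rw [hM]
    simp_rw [Finset.mul_sum, ← Finset.sum_sub_distrib]
    refine Finset.sum_congr rfl fun t _ => Finset.sum_congr rfl fun s _ => ?_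
    ring
  rw [key] at err
  set A := ∑ t ∈ Finset.range L, ∑ s ∈ Finset.range L,
        GN L ω t s * (GD L ω t s + GD L ω (t + 1) s + GD L ω t (s + 1) +
          GD L ω (t + 1) (s + 1)) with hA
  have c0 : 40 / ω ≤ 120 / ω ^ 2 := by
    rw [div_le_div_iff₀ h0 (by positivity)]
    nlinarith
  have c1 : |4 * Real.sinh ω ^ 2 * A - 4 * (L * (Real.cosh ω / Real.sinh ω))| ≤
      5000000 * (1 / ω ^ 2) + 1764 * L := by
    have p2 : 0 ≤ 1 / ω ^ 2 := by positivity
    have e1 : 50 / ω ^ 2 = 50 * (1 / ω ^ 2) := by ring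
    have e2 : 40 / ω ^ 2 = 40 * (1 / ω ^ 2) := by ring
    have e3 : 120 / ω ^ 2 = 120 * (1 / ω ^ 2) := by ring
    rw [e1] at err
    rw [e2] at hm
    rw [e3] at c0
    rw [abs_le] at hm err ⊢
    constructor <;> linarith [hm.1, hm.2, err.1, err.2]
  have c2 : |A - L * Real.cosh ω / Real.sinh ω ^ 3| ≤
      1250000 * (1 / ω ^ 4) + 441 * (L / ω ^ 2) := by
    have e : 4 * Real.sinh ω ^ 2 * A - 4 * (L * (Real.cosh ω / Real.sinh ω)) =
        4 * Real.sinh ω ^ 2 * (A - L * Real.cosh ω / Real.sinh ω ^ 3) := by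
      field_simp
    rw [e, abs_mul, abs_of_nonneg (by positivity)] at c1
    have h6 : 4 * ω ^ 2 * |A - L * Real.cosh ω / Real.sinh ω ^ 3| ≤
        5000000 * (1 / ω ^ 2) + 1764 * L := by
      refine le_trans ?_ c1
      gcongr
    have h7 : |A - L * Real.cosh ω / Real.sinh ω ^ 3| ≤
        (5000000 * (1 / ω ^ 2) + 1764 * L) / (4 * ω ^ 2) := by
      rw [le_div_iff₀ (by positivity)]
      linarith
    refine h7.trans (le_of_eq ?_)
    field_simp
    ring
  have c3 : |L * Real.cosh ω / Real.sinh ω ^ 3 - L / ω ^ 3| ≤ 54 * (L / ω ^ 2) := by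
    have h7 := cosh_sig h0 h3 3
    have e : L * Real.cosh ω / Real.sinh ω ^ 3 - L / ω ^ 3 =
        L / ω ^ 3 * (Real.cosh ω / (Real.sinh ω / ω) ^ 3 - 1) := by
      field_simp
    rw [e, abs_mul, abs_of_nonneg (by positivity)]
    calc L / ω ^ 3 * |Real.cosh ω / (Real.sinh ω / ω) ^ 3 - 1| ≤
        L / ω ^ 3 * ((21 + 11 * (3 : ℕ)) * ω) := by gcongr
      _ = 54 * (L / ω ^ 2) := by push_cast; field_simp; norm_num
  have h8 : A - L / ω ^ 3 = (A - L * Real.cosh ω / Real.sinh ω ^ 3) +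
      (L * Real.cosh ω / Real.sinh ω ^ 3 - L / ω ^ 3) := by ring
  rw [h8]
  refine (abs_add_le _ _).trans ?_
  have p6 : 0 ≤ 1 / ω ^ 4 := by positivity
  have p4 : 0 ≤ (L : ℝ) / ω ^ 2 := by positivity
  linarith

end

end Pool.Agent.Y427.AF
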